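import Pool.Agent.Helper76.RC.TrD

/-!
# Powers of `exp (-i D)` for an alignment given by integer data

`ejP` is the kernel approximation (helper54's `PF`, scale `2 ^ s`) of `ee (-(Dt Q l t))`, `ejC` the list of the
approximations of `ee (-((1 + d k) Dt Q l t))`, `k = 0, 1, …` (`d = 1` or `d = 2`).
-/

set_option autoImplicit false

open Helper49.LT

namespace Helper76.RC.TrD

open Helper76.RC.TPoly Helper54.RC.Fast Helper76.RC.ExpF

/-- the approximation of `exp (-i D)` with scale `2 ^ s`; `sE` is the exponent of the divisions -/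
def ejP (b s sE M Q R n τ : ℕ) (l : List (ℤ × ℤ)) : PF :=
  ⟨expF b sE M (Nat.pow 2 s) (Nat.mul 2 Q) n (zE b l), Nat.add (Nat.mul 21 R) τ⟩

theorem norm_ee_D (Q : ℕ) (l : List (ℤ × ℤ)) (t : ℝ) : ‖ee (-(Dt Q l t))‖ = 1 := norm_ee _

theorem ejP_sound (b r s sE M Q R n τ : ℕ) (l : List (ℤ × ℤ)) (hr : r ≤ b + 1)
    (h : okX b r sE M (2 ^ s) Q R n τ l = true) :
    AP b s (ejP b s sE M Q R n τ l) (fun t => ee (-(Dt Q l t))) := by
  obtain ⟨h1, -, h3⟩ := expD_sound b r sE M (2 ^ s) Q R n τ l hr h
  refine ⟨h1, fun t => ?_⟩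
  have := h3 t
  push_cast at this
  have e1 : (ejP b s sE M Q R n τ l).z = expF b sE M (2 ^ s) (2 * Q) n (zE b l) := rfl
  have e2 : (ejP b s sE M Q R n τ l).er = 21 * R + τ := rfl
  rw [e1, e2]
  push_cast
  exact this

theorem ee_pow (x : ℝ) (n : ℕ) : ee x ^ n = ee ((n : ℝ) * x) := by
  induction n with
  | zero => simp [ee_zero]
  | succ n ih =>
    rw [pow_succ, ih, ← ee_add]
    congr 1
    push_cast
    ring

/-- the chain of the powers `1, 1 + d, 1 + 2 d, …` (in reverse order), `d = 1` or `2` -/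
def ejC (b r s sE M Q R n τ d : ℕ) (l : List (ℤ × ℤ)) (ws : List ℕ) : Option (List PF) :=
  bif okX b r sE M (Nat.pow 2 s) Q R n τ l then
    bif Nat.beq d 1 then chain b s r (ejP b s sE M Q R n τ l) ws (ejP b s sE M Q R n τ l) []
    else
      bif okG b r (Nat.mul 2 M) (ejP b s sE M Q R n τ l) (ejP b s sE M Q R n τ l) then
        bif Nat.beq d 2 then
          chain b s r (stepU b s r (Nat.mul 2 M) (ejP b s sE M Q R n τ l) (ejP b s sE M Q R n τ l)) ws
            (ejP b s sE M Q R n τ l) []
        else none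
      else none
  else none

theorem ejC_sound (b r s sE M Q R n τ d : ℕ) (l : List (ℤ × ℤ)) (ws : List ℕ) (res : List PF)
    (hr : r ≤ b + 1) (hs : s ≤ b) (h : ejC b r s sE M Q R n τ d l ws = some res) (k : ℕ) (p : PF)
    (hp : res.reverse[k]? = some p) : AP b s p (fun t => ee (-(((1 + k * d : ℕ) : ℝ) * Dt Q l t))) := by
  have e0 : Nat.pow 2 s = 2 ^ s := rfl
  unfold ejC at h
  rw [e0] at h
  have hu : ∀ t, ‖(fun t => ee (-(Dt Q l t))) t‖ = 1 := fun t => norm_ee_D Q l t
  suffices hmain : AP b s p (fun t => (fun t => ee (-(Dt Q l t))) t ^ (1 + k * d)) by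
    refine ⟨hmain.1, fun t => ?_⟩
    have := hmain.2 t
    simp only [ee_pow] at this
    have e : ((1 + k * d : ℕ) : ℝ) * -(Dt Q l t) = -(((1 + k * d : ℕ) : ℝ) * Dt Q l t) := by ring
    rw [e] at this
    exact this
  cases h1 : okX b r sE M (2 ^ s) Q R n τ l with
  | false => rw [h1] at h; simp at h
  | true =>
    rw [h1] at h
    have hy := ejP_sound b r s sE M Q R n τ l hr h1
    have hy1 : AP b s (ejP b s sE M Q R n τ l) (fun t => (fun t => ee (-(Dt Q l t))) t ^ 1) := by
      simpa using hy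
    cases h2 : Nat.beq d 1 with
    | true =>
      rw [h2] at h
      have hd : d = 1 := Nat.eq_of_beq_eq_true h2
      subst hd
      exact chain_sound b s r hr hs _ hu 1 _ hy1 ws 1 _ [] res (by simpa using hy) (by simp) h k p hp
    | false =>
      rw [h2] at h
      cases h3 : okG b r (Nat.mul 2 M) (ejP b s sE M Q R n τ l) (ejP b s sE M Q R n τ l) with
      | false => rw [h3] at h; simp at h
      | true =>
        rw [h3] at h
        cases h4 : Nat.beq d 2 with
        | false => rw [h4] at h; simp at h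
        | true =>
          rw [h4] at h
          have hd : d = 2 := Nat.eq_of_beq_eq_true h4
          subst hd
          have hy2 := stepU_sound b s r (Nat.mul 2 M) hr hs _ _ _ hu 1 1 hy1 hy1 h3
          exact chain_sound b s r hr hs _ hu 2 _ hy2 ws 1 _ [] res (by simpa using hy) (by simp) h k p hp

end Helper76.RC.TrD
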