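import Pool.Agent.Helper76.RC.TPoly

/-!
# The exponential of a trigonometric polynomial: certified Horner scheme

Format independent part: a chain `w 0 = 1`, `w (j+1) ≈ 1 + x / (n - j) * w j` gives `w n ≈ exp x`.
-/

namespace Helper76.RC.ExpC

open Finset

private theorem chain_aux (x : ℂ) (X r : ℝ) (n : ℕ) (w : ℕ → ℂ) (hx : ‖x‖ ≤ X) (hw : w 0 = 1)
    (hr : ∀ j < n, ‖w (j + 1) - (1 + x / ((n - j : ℕ) : ℂ) * w j)‖ ≤ r) (j : ℕ) (hj : j ≤ n) :
    ‖x ^ (n - j) / ((n - j).factorial : ℂ) * w j - ∑ m ∈ Ico (n - j) (n + 1), x ^ m / (m.factorial : ℂ)‖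
      ≤ r * ∑ m ∈ Ico (n - j) n, X ^ m / (m.factorial : ℝ) := by
  have hX : 0 ≤ X := (norm_nonneg x).trans hx
  induction j with
  | zero =>
    simp [hw]
  | succ j ih =>
    have ih := ih (by omega)
    obtain ⟨k, hk⟩ : ∃ k, n - j = k + 1 := ⟨n - j - 1, by omega⟩
    have hk' : n - (j + 1) = k := by omega
    have hr := hr j (by omega)
    rw [hk] at ih hr
    rw [hk', Finset.sum_eq_sum_Ico_succ_bot (by omega : k < n + 1),
      Finset.sum_eq_sum_Ico_succ_bot (by omega : k < n)]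
    have hkf : ((k.factorial : ℕ) : ℂ) ≠ 0 := by exact_mod_cast Nat.factorial_ne_zero k
    have hk1 : ((k : ℂ) + 1) ≠ 0 := by exact_mod_cast Nat.succ_ne_zero k
    have e : x ^ k / (k.factorial : ℂ) * w (j + 1)
        - (x ^ k / (k.factorial : ℂ) + ∑ m ∈ Ico (k + 1) (n + 1), x ^ m / (m.factorial : ℂ))
        = x ^ k / (k.factorial : ℂ) * (w (j + 1) - (1 + x / ((k + 1 : ℕ) : ℂ) * w j))
          + (x ^ (k + 1) / ((k + 1).factorial : ℂ) * w j
            - ∑ m ∈ Ico (k + 1) (n + 1), x ^ m / (m.factorial : ℂ)) := by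
      rw [Nat.factorial_succ]
      push_cast
      field_simp
      ring
    rw [e]
    refine (norm_add_le _ _).trans ?_
    rw [mul_add]
    refine add_le_add ?_ ih
    rw [norm_mul, norm_div, norm_pow, mul_comm r]
    have h1 : ‖((k.factorial : ℕ) : ℂ)‖ = (k.factorial : ℝ) := by simp
    rw [h1]
    have h2 : ‖x‖ ^ k / (k.factorial : ℝ) ≤ X ^ k / (k.factorial : ℝ) := by
      apply div_le_div_of_nonneg_right _ (by positivity)
      exact pow_le_pow_left₀ (norm_nonneg _) hx k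
    exact mul_le_mul h2 hr (norm_nonneg _) (by positivity)

/-- **Certified Horner scheme for the exponential**: all steps have error at most `r`. -/
theorem exp_of_chain (x : ℂ) (X r : ℝ) (n : ℕ) (w : ℕ → ℂ) (hx : ‖x‖ ≤ X) (hX : 2 * X ≤ n + 2)
    (hr0 : 0 ≤ r) (hw : w 0 = 1)
    (hr : ∀ j < n, ‖w (j + 1) - (1 + x / ((n - j : ℕ) : ℂ) * w j)‖ ≤ r) :
    ‖w n - Complex.exp x‖ ≤ r * Real.exp X + X ^ (n + 1) / ((n + 1).factorial : ℝ) * 2 := by
  have hX0 : 0 ≤ X := (norm_nonneg x).trans hx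
  have h := chain_aux x X r n w hx hw hr n le_rfl
  simp only [Nat.sub_self, pow_zero, Nat.factorial_zero, Nat.cast_one, div_one, one_mul,
    ← Finset.range_eq_Ico] at h
  have h1 : ‖Complex.exp x - ∑ m ∈ range (n + 1), x ^ m / (m.factorial : ℂ)‖
      ≤ ‖x‖ ^ (n + 1) / ((n + 1).factorial : ℝ) * 2 := by
    apply Complex.exp_bound'
    rw [div_le_iff₀ (by positivity)]
    push_cast
    linarith
  have h2 : ∑ m ∈ range n, X ^ m / (m.factorial : ℝ) ≤ Real.exp X := Real.sum_le_exp_of_nonneg hX0 n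
  have h3 : ‖x‖ ^ (n + 1) / ((n + 1).factorial : ℝ) * 2 ≤ X ^ (n + 1) / ((n + 1).factorial : ℝ) * 2 := by
    apply mul_le_mul_of_nonneg_right _ (by norm_num)
    apply div_le_div_of_nonneg_right _ (by positivity)
    exact pow_le_pow_left₀ (norm_nonneg _) hx _
  calc ‖w n - Complex.exp x‖
      = ‖(w n - ∑ m ∈ range (n + 1), x ^ m / (m.factorial : ℂ))
          - (Complex.exp x - ∑ m ∈ range (n + 1), x ^ m / (m.factorial : ℂ))‖ := by congr 1; ring
    _ ≤ _ := norm_sub_le _ _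
    _ ≤ _ := add_le_add (h.trans (mul_le_mul_of_nonneg_left h2 hr0)) (h1.trans h3)

end Helper76.RC.ExpC
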