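import Pool.Agent.Helper54.RC.Fast3
import Pool.Agent.Helper76.RC.ExpC

/-!
# The exponential of a trigonometric polynomial in the fast kernel format of helper54

`expF b s M S Q d n` is computed by the kernel (Horner scheme with rounding and window `-M .. M`);
if the check `okE` is true then `‖V b (expF …) t - S * exp (V b d t / Q)‖ ≤ 21 * R + τ` for all `t`.
-/

set_option autoImplicit false

open Helper49.LT

namespace Helper76.RC.ExpF

open Helper76.RC.TPoly Helper54.RC.Fast

/-! ## Constants -/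

/-- the constant `c` -/
def cst (b N c : ℕ) : FP :=
  ⟨N, Nat.add (of b (len N)) (Nat.mul c (Nat.pow 2 (Nat.mul (Nat.succ b) N))), of b (len N)⟩

theorem evz_append (B : ℤ) (l m : List ℤ) : evz B (l ++ m) = evz B l + B ^ l.length * evz B m := by
  have := evr_append B l m
  simp only [evz_eq]
  exact this

theorem evz_replicate (B : ℤ) (n : ℕ) : evz B (List.replicate n 0) = 0 := by
  have := evr_replicate_zero B n
  simp only [evz_eq]
  exact this

theorem ls_of_zero (b n : ℕ) : ls b n (of b n) = List.replicate n 0 ∧ of b n < (2 ^ (b + 1)) ^ n := by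
  apply ls_of b n _ (List.length_replicate ..)
  · intro c hc
    rw [List.eq_of_mem_replicate hc]
    constructor
    · simp
    · positivity
  · rw [evz_replicate, of_eq]
    push_cast
    ring

theorem ls_cst (b N c : ℕ) (h : c < 2 ^ b) :
    ls b (len N) (of b (len N) + c * 2 ^ ((b + 1) * N)) = List.replicate N 0 ++ (c : ℤ) :: List.replicate N 0 ∧
      of b (len N) + c * 2 ^ ((b + 1) * N) < (2 ^ (b + 1)) ^ (len N) := by
  apply ls_of b (len N)
  · simp [len_eq]
    ring
  · intro x hx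
    rcases List.mem_append.1 hx with h1 | h1
    · rw [List.eq_of_mem_replicate h1]
      constructor
      · simp
      · positivity
    · rcases List.mem_cons.1 h1 with h2 | h2
      · rw [h2]
        constructor
        · have : (0 : ℤ) ≤ (c : ℤ) := Nat.cast_nonneg _
          have : (0 : ℤ) ≤ ((2 ^ b : ℕ) : ℤ) := Nat.cast_nonneg _
          linarith
        · exact_mod_cast h
      · rw [List.eq_of_mem_replicate h2]
        constructor
        · simp
        · positivity
  · rw [evz_append, List.length_replicate, evz_replicate]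
    simp only [evz, evz_replicate]
    rw [of_eq]
    push_cast
    rw [pow_mul]
    ring

theorem cst_sound (b N c : ℕ) (h : c < 2 ^ b) : wf b (cst b N c) = true ∧ ∀ t, V b (cst b N c) t = c := by
  obtain ⟨k1, k2⟩ := ls_cst b N c h
  obtain ⟨k3, k4⟩ := ls_of_zero b (len N)
  refine ⟨wf_mk b _ _ _ k2 k4, fun t => ?_⟩
  unfold V
  have e : tp b (cst b N c) = TP.ctr N c := by
    show (⟨ls b (len N) (of b (len N) + c * 2 ^ ((b + 1) * N)), ls b (len N) (of b (len N))⟩ : TP) = _
    rw [k1, k3]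
    rfl
  have e2 : (cst b N c).N = N := rfl
  rw [e, e2, T_ctr]
  push_cast
  rfl

/-! ## One step -/

/-- `⌊2 ^ s / (Q k)⌋` -/
def cc (s Q k : ℕ) : ℕ := Nat.div (Nat.pow 2 s) (Nat.mul Q k)
/-- multiplication by `c`, division by `2 ^ s` -/
def hq (b s c : ℕ) (p : FP) : FP := flF b s (smF b c p)
/-- window and addition of the constant -/
def hw (b M S : ℕ) (q : FP) : FP := addF b (winF b M q) (cst b M S)
/-- one step of the Horner scheme -/
def hst (b s M S c : ℕ) (d w : FP) : FP := hw b M S (hq b s c (mulF b d w))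
/-- its check, second part -/
def ok2 (b r M S c R : ℕ) (p q : FP) : Bool :=
  bif oks b r c p then
    bif oka b r (winF b M q) (cst b M S) then
      Nat.ble (Nat.succ (Nat.add (Nat.mul 2 (len p.N)) (tlF b r M q))) R
    else false
  else false
/-- its check, first part -/
def ok1 (b r s M S c R D : ℕ) (d w p : FP) : Bool :=
  bif okm b r d w then
    bif Nat.ble (Nat.mul D (nrF b r w)) (Nat.pow 2 s) then ok2 b r M S c R p (hq b s c p) else false
  else false

theorem cc_le (s Q k : ℕ) (hQ : 0 < Q) (hk : 0 < k) :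
    |((cc s Q k : ℕ) : ℝ) / 2 ^ s - 1 / ((Q : ℝ) * k)| ≤ 1 / 2 ^ s := by
  have h0 : 0 < Q * k := Nat.mul_pos hQ hk
  have h1 : cc s Q k = 2 ^ s / (Q * k) := rfl
  have h2 := Nat.div_add_mod (2 ^ s) (Q * k)
  have h3 := Nat.mod_lt (2 ^ s) h0
  rw [← h1] at h2
  set c := cc s Q k
  have h4 : ((Q : ℝ) * k) * c + ((2 ^ s % (Q * k) : ℕ) : ℝ) = 2 ^ s := by exact_mod_cast h2
  have h5 : ((2 ^ s % (Q * k) : ℕ) : ℝ) ≤ (Q : ℝ) * k := by exact_mod_cast h3.le
  have h6 : (0 : ℝ) ≤ ((2 ^ s % (Q * k) : ℕ) : ℝ) := Nat.cast_nonneg _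
  have h7 : (0 : ℝ) < (Q : ℝ) * k := by exact_mod_cast h0
  have h8 : (0 : ℝ) < (2 : ℝ) ^ s := by positivity
  have e : (c : ℝ) / 2 ^ s - 1 / ((Q : ℝ) * k) = -((2 ^ s % (Q * k) : ℕ) : ℝ) / ((Q : ℝ) * k) / 2 ^ s := by
    field_simp
    linarith
  rw [e, abs_div, abs_div, abs_neg, abs_of_nonneg h6, abs_of_pos h7, abs_of_pos h8]
  apply div_le_div_of_nonneg_right _ h8.le
  rw [div_le_one h7]
  exact h5

theorem step_sound (b r s M S R k Q : ℕ) (hr : r ≤ b + 1) (hs : s ≤ b) (hS : S < 2 ^ b) (hQ : 0 < Q)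
    (hk : 0 < k) (d w : FP) (hd : wf b d = true) (hw : wf b w = true) (hwN : w.N = M)
    (h : ok1 b r s M S (cc s Q k) R (nrF b r d) d w (mulF b d w) = true) :
    wf b (hst b s M S (cc s Q k) d w) = true ∧ (hst b s M S (cc s Q k) d w).N = M ∧
      ∀ t, ‖V b (hst b s M S (cc s Q k) d w) t - ((S : ℂ) + V b d t / Q / (k : ℂ) * V b w t)‖ ≤ R := by
  have hb : ∀ (x y : Bool), (bif x then y else false) = true ↔ x = true ∧ y = true := by
    intro x y; cases x <;> simp
  unfold ok1 ok2 at h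
  rw [hb, hb, hb, hb] at h
  obtain ⟨h1, h2, h3, h4, h5⟩ := h
  have h2 : nrF b r d * nrF b r w ≤ 2 ^ s := Nat.le_of_ble_eq_true h2
  have h5 : 2 * len (mulF b d w).N + tlF b r M (hq b s (cc s Q k) (mulF b d w)) + 1 ≤ R :=
    Nat.le_of_ble_eq_true h5
  obtain ⟨p1, p2⟩ := mulF_sound b r hr d w hd hw h1
  obtain ⟨p3, p4⟩ := smF_sound b r hr (cc s Q k) _ p1 h3
  obtain ⟨p5, p6⟩ := flF_sound b s hs (smF b (cc s Q k) (mulF b d w))
  have hN : M ≤ (hq b s (cc s Q k) (mulF b d w)).N := by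
    show M ≤ d.N + w.N
    omega
  obtain ⟨p7, p8⟩ := winF_sound b r M hr (hq b s (cc s Q k) (mulF b d w)) hN
  obtain ⟨p9, p10⟩ := cst_sound b M S hS
  obtain ⟨p11, p12⟩ := addF_sound b r hr _ _ p7 p9 h4
  refine ⟨p11, rfl, fun t => ?_⟩
  set c : ℕ := cc s Q k with hc
  set W := V b w t
  set X := V b d t
  have q1 : V b (hst b s M S c d w) t = V b (winF b M (hq b s c (mulF b d w))) t + S := by
    have := p12 t
    rw [p10] at this
    exact this
  have q2 := p8 t
  have q3 := p6 t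
  rw [p4, p2] at q3
  have hq' : V b (hq b s c (mulF b d w)) t = V b (flF b s (smF b c (mulF b d w))) t := rfl
  rw [hq'] at q2
  set F := V b (flF b s (smF b c (mulF b d w))) t
  set G := V b (winF b M (hq b s c (mulF b d w))) t
  have hlen : len (smF b c (mulF b d w)).N = len (mulF b d w).N := rfl
  rw [hlen] at q3
  have h2s : (0 : ℝ) < 2 ^ s := by positivity
  have h2c : (2 ^ s : ℂ) ≠ 0 := pow_ne_zero _ two_ne_zero
  have hX : ‖X‖ ≤ nrF b r d := norm_V_le b r hr d t
  have hW : ‖W‖ ≤ nrF b r w := norm_V_le b r hr w t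
  -- the pieces
  have q4 : ‖(c : ℂ) / 2 ^ s * (X * W) - F‖ ≤ 2 * (len (mulF b d w).N : ℝ) := by
    have e : (c : ℂ) / 2 ^ s * (X * W) - F = ((c : ℂ) * (X * W) - 2 ^ s * F) / 2 ^ s := by
      field_simp
    rw [e, norm_div]
    have : ‖(2 ^ s : ℂ)‖ = 2 ^ s := by simp
    rw [this, div_le_iff₀ h2s]
    exact q3
  have q5 : ‖((c : ℂ) / 2 ^ s - 1 / ((Q : ℂ) * k)) * (X * W)‖ ≤ 1 := by
    rw [norm_mul, norm_mul]
    have e : ((c : ℂ) / 2 ^ s - 1 / ((Q : ℂ) * k)) = (((c : ℝ) / 2 ^ s - 1 / ((Q : ℝ) * k) : ℝ) : ℂ) := by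
      push_cast
      rfl
    rw [e, Complex.norm_real, Real.norm_eq_abs]
    have a1 := cc_le s Q k hQ hk
    have a2 : ‖X‖ * ‖W‖ ≤ 2 ^ s := by
      calc ‖X‖ * ‖W‖ ≤ (nrF b r d : ℝ) * (nrF b r w : ℝ) :=
            mul_le_mul hX hW (norm_nonneg _) (Nat.cast_nonneg _)
        _ ≤ 2 ^ s := by exact_mod_cast h2
    calc |(c : ℝ) / 2 ^ s - 1 / ((Q : ℝ) * k)| * (‖X‖ * ‖W‖) ≤ 1 / 2 ^ s * 2 ^ s :=
          mul_le_mul a1 a2 (by positivity) (by positivity)
      _ = 1 := by field_simp
  have hQc : (Q : ℂ) ≠ 0 := by exact_mod_cast hQ.ne'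
  have hkc : (k : ℂ) ≠ 0 := by exact_mod_cast hk.ne'
  have e : V b (hst b s M S c d w) t - ((S : ℂ) + X / Q / (k : ℂ) * W) =
      -(F - G) - ((c : ℂ) / 2 ^ s * (X * W) - F) + ((c : ℂ) / 2 ^ s - 1 / ((Q : ℂ) * k)) * (X * W) := by
    rw [q1]
    field_simp
    ring
  rw [e]
  have h5' : 2 * (len (mulF b d w).N : ℝ) + (tlF b r M (hq b s c (mulF b d w)) : ℝ) + 1 ≤ R := by
    exact_mod_cast h5
  calc _ ≤ ‖-(F - G) - ((c : ℂ) / 2 ^ s * (X * W) - F)‖ + ‖((c : ℂ) / 2 ^ s - 1 / ((Q : ℂ) * k)) * (X * W)‖ :=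
        norm_add_le _ _
    _ ≤ (‖-(F - G)‖ + ‖(c : ℂ) / 2 ^ s * (X * W) - F‖) + ‖((c : ℂ) / 2 ^ s - 1 / ((Q : ℂ) * k)) * (X * W)‖ :=
        add_le_add (norm_sub_le _ _) le_rfl
    _ ≤ R := by
        rw [norm_neg]
        linarith

/-! ## The chain -/

/-- the steps `k, k - 1, ..., 1` -/
def run (b s M S Q : ℕ) (d : FP) : ℕ → FP → FP
  | 0, w => w
  | k + 1, w => run b s M S Q d k (hst b s M S (cc s Q (k + 1)) d w)
/-- their check -/
def chk (b r s M S Q R D : ℕ) (d : FP) : ℕ → FP → Bool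
  | 0, _ => true
  | k + 1, w =>
    bif ok1 b r s M S (cc s Q (k + 1)) R D d w (mulF b d w) then
      chk b r s M S Q R D d k (hst b s M S (cc s Q (k + 1)) d w)
    else false

/-- the approximation of `S * exp (d / Q)` -/
def expF (b s M S Q n : ℕ) (d : FP) : FP := run b s M S Q d n (cst b M S)

/-- the sequence of the Horner scheme -/
private def sq (b s M S Q n : ℕ) (d : FP) : ℕ → FP
  | 0 => cst b M S
  | j + 1 => hst b s M S (cc s Q (n - j)) d (sq b s M S Q n d j)

private theorem run_sq (b s M S Q n : ℕ) (d : FP) (j : ℕ) (hj : j ≤ n) :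
    run b s M S Q d (n - j) (sq b s M S Q n d j) = expF b s M S Q n d := by
  induction j with
  | zero => rfl
  | succ j ih =>
    rw [← ih (by omega)]
    obtain ⟨k, hk⟩ : ∃ k, n - j = k + 1 := ⟨n - j - 1, by omega⟩
    have hk' : n - (j + 1) = k := by omega
    rw [hk', hk]
    simp only [sq, run]
    rw [hk]

private theorem chk_sq (b r s M S Q R D n : ℕ) (d : FP) (h : chk b r s M S Q R D d n (cst b M S) = true)
    (j : ℕ) (hj : j ≤ n) : chk b r s M S Q R D d (n - j) (sq b s M S Q n d j) = true := by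
  induction j with
  | zero => exact h
  | succ j ih =>
    have ih := ih (by omega)
    obtain ⟨k, hk⟩ : ∃ k, n - j = k + 1 := ⟨n - j - 1, by omega⟩
    have hk' : n - (j + 1) = k := by omega
    rw [hk] at ih
    rw [hk']
    simp only [sq]
    rw [hk]
    unfold chk at ih
    cases h1 : ok1 b r s M S (cc s Q (k + 1)) R D d (sq b s M S Q n d j) (mulF b d (sq b s M S Q n d j)) with
    | false => rw [h1] at ih; simp at ih
    | true => rw [h1] at ih; exact ih

private theorem chk_ok (b r s M S Q R D n : ℕ) (d : FP) (h : chk b r s M S Q R D d n (cst b M S) = true)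
    (j : ℕ) (hj : j < n) : ok1 b r s M S (cc s Q (n - j)) R D d (sq b s M S Q n d j)
      (mulF b d (sq b s M S Q n d j)) = true := by
  have h0 := chk_sq b r s M S Q R D n d h j hj.le
  obtain ⟨k, hk⟩ : ∃ k, n - j = k + 1 := ⟨n - j - 1, by omega⟩
  rw [hk] at h0 ⊢
  unfold chk at h0
  cases h1 : ok1 b r s M S (cc s Q (k + 1)) R D d (sq b s M S Q n d j) (mulF b d (sq b s M S Q n d j)) with
  | false => rw [h1] at h0; simp at h0
  | true => rfl

/-- all conditions -/
def okE (b r s M S Q R n τ : ℕ) (d : FP) : Bool :=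
  bif Nat.ble r (Nat.succ b) then
    bif Nat.ble s b then
      bif Nat.ble (Nat.succ S) (Nat.pow 2 b) then
        bif Nat.ble 1 Q then
          bif Nat.ble 1 S then
            bif Nat.ble 4 n then
              bif wf b d then
                bif Nat.ble (nrF b r d) (Nat.mul 3 Q) then
                  bif Nat.ble (Nat.mul (Nat.mul 2 S) (Nat.pow (nrF b r d) (Nat.succ n)))
                    (Nat.mul τ (Nat.mul (Nat.pow Q (Nat.succ n)) (Nat.factorial (Nat.succ n)))) then
                    chk b r s M S Q R (nrF b r d) d n (cst b M S)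
                  else false
                else false
              else false
            else false
          else false
        else false
      else false
    else false
  else false

theorem exp_three : Real.exp 3 ≤ 21 := by
  have h1 : Real.exp 3 = Real.exp 1 ^ 3 := by
    rw [← Real.exp_nat_mul]
    norm_num
  have h2 := Real.exp_one_lt_d9
  have h3 := Real.exp_pos 1
  rw [h1]
  calc Real.exp 1 ^ 3 ≤ 2.7182818286 ^ 3 := pow_le_pow_left₀ h3.le h2.le 3
    _ ≤ 21 := by norm_num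

/-- **The exponential of a trigonometric polynomial.** -/
theorem expF_sound (b r s M S Q R n τ : ℕ) (d : FP) (h : okE b r s M S Q R n τ d = true) :
    wf b (expF b s M S Q n d) = true ∧ (expF b s M S Q n d).N = M ∧
      ∀ t, ‖V b (expF b s M S Q n d) t - S * Complex.exp (V b d t / Q)‖ ≤ ((21 * R + τ : ℕ) : ℝ) := by
  have hb : ∀ (x y : Bool), (bif x then y else false) = true ↔ x = true ∧ y = true := by
    intro x y; cases x <;> simp
  unfold okE at h
  rw [hb, hb, hb, hb, hb, hb, hb, hb, hb] at h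
  obtain ⟨h1, h2, h3, h4, h5, h6, h7, h8, h9, h10⟩ := h
  have hr : r ≤ b + 1 := Nat.le_of_ble_eq_true h1
  have hs : s ≤ b := Nat.le_of_ble_eq_true h2
  have hS : S < 2 ^ b := Nat.le_of_ble_eq_true h3
  have hQ : 0 < Q := Nat.le_of_ble_eq_true h4
  have hS0 : 0 < S := Nat.le_of_ble_eq_true h5
  have hn : 4 ≤ n := Nat.le_of_ble_eq_true h6
  have hD : nrF b r d ≤ 3 * Q := Nat.le_of_ble_eq_true h8
  have hτ : 2 * S * nrF b r d ^ (n + 1) ≤ τ * (Q ^ (n + 1) * (n + 1).factorial) := Nat.le_of_ble_eq_true h9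
  have hall : ∀ j ≤ n, wf b (sq b s M S Q n d j) = true ∧ (sq b s M S Q n d j).N = M := by
    intro j
    induction j with
    | zero => intro _; exact ⟨(cst_sound b M S hS).1, rfl⟩
    | succ j ih =>
      intro hj
      obtain ⟨i1, i2⟩ := ih (by omega)
      have := step_sound b r s M S R (n - j) Q hr hs hS hQ (by omega) d _ h7 i1 i2
        (chk_ok b r s M S Q R _ n d h10 j (by omega))
      exact ⟨this.1, this.2.1⟩
  have hfin : sq b s M S Q n d n = expF b s M S Q n d := by
    have := run_sq b s M S Q n d n le_rfl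
    rw [Nat.sub_self] at this
    exact this
  obtain ⟨f1, f2⟩ := hall n le_rfl
  rw [hfin] at f1 f2
  refine ⟨f1, f2, fun t => ?_⟩
  have hSr : (0 : ℝ) < S := by exact_mod_cast hS0
  have hSc : (S : ℂ) ≠ 0 := by exact_mod_cast hS0.ne'
  have hQr : (0 : ℝ) < Q := by exact_mod_cast hQ
  have hQn : ‖(Q : ℂ)‖ = Q := by simp
  have hSn : ‖(S : ℂ)‖ = S := by simp
  have hX : ‖V b d t / Q‖ ≤ (nrF b r d : ℝ) / Q := by
    rw [norm_div, hQn]
    exact div_le_div_of_nonneg_right (norm_V_le b r hr d t) hQr.le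
  have hX3 : (nrF b r d : ℝ) / Q ≤ 3 := by
    rw [div_le_iff₀ hQr]
    exact_mod_cast hD
  have key := ExpC.exp_of_chain (V b d t / Q) ((nrF b r d : ℝ) / Q) ((R : ℝ) / S) n
    (fun j => V b (sq b s M S Q n d j) t / S) hX (by
      have : (4 : ℝ) ≤ n := by exact_mod_cast hn
      linarith) (by positivity)
    (by
      simp only [sq]
      rw [(cst_sound b M S hS).2]
      exact div_self hSc)
    (by
      intro j hj
      obtain ⟨i1, i2⟩ := hall j hj.le
      have := (step_sound b r s M S R (n - j) Q hr hs hS hQ (by omega) d _ h7 i1 i2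
        (chk_ok b r s M S Q R _ n d h10 j hj)).2.2 t
      have e : V b (sq b s M S Q n d (j + 1)) t / S -
          (1 + V b d t / Q / ((n - j : ℕ) : ℂ) * (V b (sq b s M S Q n d j) t / S)) =
          (V b (sq b s M S Q n d (j + 1)) t -
            ((S : ℂ) + V b d t / Q / ((n - j : ℕ) : ℂ) * V b (sq b s M S Q n d j) t)) / S := by
        field_simp
      rw [e, norm_div, hSn]
      exact div_le_div_of_nonneg_right this hSr.le)
  rw [hfin] at key
  have e : V b (expF b s M S Q n d) t - S * Complex.exp (V b d t / Q) =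
      S * (V b (expF b s M S Q n d) t / S - Complex.exp (V b d t / Q)) := by
    field_simp
  rw [e, norm_mul, hSn]
  have g1 : Real.exp ((nrF b r d : ℝ) / Q) ≤ 21 := (Real.exp_le_exp.2 hX3).trans exp_three
  have g2 : (S : ℝ) * (((nrF b r d : ℝ) / Q) ^ (n + 1) / ((n + 1).factorial : ℝ) * 2) ≤ τ := by
    have hf : (0 : ℝ) < ((n + 1).factorial : ℝ) := by exact_mod_cast Nat.factorial_pos _
    have e2 : (S : ℝ) * (((nrF b r d : ℝ) / Q) ^ (n + 1) / ((n + 1).factorial : ℝ) * 2) =
        (2 * S * (nrF b r d : ℝ) ^ (n + 1)) / ((Q : ℝ) ^ (n + 1) * ((n + 1).factorial : ℝ)) := by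
      rw [div_pow]
      field_simp
    rw [e2, div_le_iff₀ (by positivity)]
    exact_mod_cast hτ
  calc (S : ℝ) * ‖V b (expF b s M S Q n d) t / S - Complex.exp (V b d t / Q)‖
      ≤ S * ((R : ℝ) / S * Real.exp ((nrF b r d : ℝ) / Q) +
          ((nrF b r d : ℝ) / Q) ^ (n + 1) / ((n + 1).factorial : ℝ) * 2) := mul_le_mul_of_nonneg_left key hSr.le
    _ = R * Real.exp ((nrF b r d : ℝ) / Q) +
          S * (((nrF b r d : ℝ) / Q) ^ (n + 1) / ((n + 1).factorial : ℝ) * 2) := by
        field_simp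
    _ ≤ R * 21 + τ := add_le_add (mul_le_mul_of_nonneg_left g1 (Nat.cast_nonneg _)) g2
    _ = ((21 * R + τ : ℕ) : ℝ) := by push_cast; ring

end Helper76.RC.ExpF
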