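import Pool.Agent.Helper46.RC.StHd

/-!
# Kernel checked tables of cosines and sines (HEAD engine)

`chT dn dd Nc Ns Nt Q E = true`: the packed tables `Nc`, `Nt` contain `2^48 cos (q d/2)` and
`2^48 √3 sin (q d/2)`, `q ≤ Q`, up to `E` units, `d = dn/dd`, `|d| ≤ 1/4`.
-/

open Pool.Agent.Helper46.RC.Hd

namespace Helper76.RC.TrigT

/-- `⌊2^48 √3⌋` -/
def R3 : ℤ := 487528960722122

/-- `|a - b| ≤ e` -/
def near (a b : ℤ) (e : ℕ) : Bool := Nat.ble (a - b).natAbs e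

theorem near_iff (a b : ℤ) (e : ℕ) : near a b e = true ↔ |a - b| ≤ (e : ℤ) := by
  unfold near
  rw [Nat.ble_eq, Int.abs_eq_natAbs]
  exact Nat.cast_le.symm

/-- start: Taylor polynomials of `cos`, `sin` at `X / Y` -/
def chS (X : ℤ) (Y : ℕ) (c s : ℤ) : Bool :=
  near (c * (40320 * (Y : ℤ) ^ 8)) (2 ^ 48 * (40320 * (Y : ℤ) ^ 8 - 20160 * X ^ 2 * (Y : ℤ) ^ 6
      + 1680 * X ^ 4 * (Y : ℤ) ^ 4 - 56 * X ^ 6 * (Y : ℤ) ^ 2 + X ^ 8)) (2 * (40320 * Y ^ 8)) &&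
  near (s * (362880 * (Y : ℤ) ^ 9)) (2 ^ 48 * (362880 * X * (Y : ℤ) ^ 8 - 60480 * X ^ 3 * (Y : ℤ) ^ 6
      + 3024 * X ^ 5 * (Y : ℤ) ^ 4 - 72 * X ^ 7 * (Y : ℤ) ^ 2 + X ^ 9)) (2 * (362880 * Y ^ 9))

/-- the recursion -/
def recOK (Nc Ns Nt : ℕ) (c1 s1 : ℤ) : ℕ → Bool
  | 0 => near (gT Nc 0) (2 ^ 48) 0 && (near (gT Ns 0) 0 0 && near (2 ^ 48 * gT Nt 0) (R3 * gT Ns 0) (2 ^ 49))
  | q + 1 => recOK Nc Ns Nt c1 s1 q &&
    (near (2 ^ 48 * gT Nc (q + 1)) (gT Nc q * c1 - gT Ns q * s1) (2 ^ 49) &&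
    (near (2 ^ 48 * gT Ns (q + 1)) (gT Ns q * c1 + gT Nc q * s1) (2 ^ 49) &&
      near (2 ^ 48 * gT Nt (q + 1)) (R3 * gT Ns (q + 1)) (2 ^ 49)))

/-- the check -/
def chT (dn : ℤ) (dd : ℕ) (Nc Ns Nt Q E : ℕ) : Bool :=
  Nat.ble 1 dd && (Nat.ble (4 * dn.natAbs) dd && (Nat.ble (14 * Q + 10) E && (Nat.ble E (2 ^ 40) &&
    (chS dn (2 * dd) (gT Nc 1) (gT Ns 1) && recOK Nc Ns Nt (gT Nc 1) (gT Ns 1) Q))))

/-- Taylor -/
theorem taylor_cs (y : ℝ) (hy : |y| ≤ 1 / 8) :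
    |Real.cos y - (1 - y ^ 2 / 2 + y ^ 4 / 24 - y ^ 6 / 720 + y ^ 8 / 40320)| ≤ 1 / (10 * 2 ^ 48) ∧
    |Real.sin y - (y - y ^ 3 / 6 + y ^ 5 / 120 - y ^ 7 / 5040 + y ^ 9 / 362880)| ≤ 1 / (10 * 2 ^ 48) := by
  have hn : ‖(y : ℂ) * Complex.I‖ = |y| := by
    rw [norm_mul, Complex.norm_I, mul_one, Complex.norm_real, Real.norm_eq_abs]
  have hb := Complex.exp_bound (x := (y : ℂ) * Complex.I) (by rw [hn]; linarith) (n := 10) (by norm_num)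
  rw [hn] at hb
  have hsum : ∑ m ∈ Finset.range 10, ((y : ℂ) * Complex.I) ^ m / (m.factorial : ℂ)
      = ((1 - y ^ 2 / 2 + y ^ 4 / 24 - y ^ 6 / 720 + y ^ 8 / 40320 : ℝ) : ℂ)
        + ((y - y ^ 3 / 6 + y ^ 5 / 120 - y ^ 7 / 5040 + y ^ 9 / 362880 : ℝ) : ℂ) * Complex.I := by
    have h2 : Complex.I ^ 2 = -1 := Complex.I_sq
    have h3 : Complex.I ^ 3 = -Complex.I := by rw [pow_succ, h2]; ring
    have h4 : Complex.I ^ 4 = 1 := by rw [pow_succ, h3]; rw [neg_mul, ← sq, h2]; ring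
    have h5 : Complex.I ^ 5 = Complex.I := by rw [pow_succ, h4]; ring
    have h6 : Complex.I ^ 6 = -1 := by rw [pow_succ, h5, ← sq, h2]
    have h7 : Complex.I ^ 7 = -Complex.I := by rw [pow_succ, h6]; ring
    have h8 : Complex.I ^ 8 = 1 := by rw [pow_succ, h7]; rw [neg_mul, ← sq, h2]; ring
    have h9 : Complex.I ^ 9 = Complex.I := by rw [pow_succ, h8]; ring
    simp only [Finset.sum_range_succ, Finset.sum_range_zero, mul_pow, h2, h3, h4, h5, h6, h7, h8, h9,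
      Nat.factorial, pow_zero, pow_one]
    push_cast
    ring
  rw [hsum] at hb
  have hexp : Complex.exp ((y : ℂ) * Complex.I) = (Real.cos y : ℂ) + (Real.sin y : ℂ) * Complex.I := by
    rw [Complex.exp_mul_I]
    simp
  rw [hexp] at hb
  have hy10 : |y| ^ 10 ≤ (1 / 8) ^ 10 := pow_le_pow_left₀ (abs_nonneg _) hy 10
  have hB : |y| ^ 10 * (((10 : ℕ).succ : ℝ) * ((Nat.factorial 10 : ℝ) * ((10 : ℕ) : ℝ))⁻¹) ≤ 1 / (10 * 2 ^ 48) := by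
    have e : (((10 : ℕ).succ : ℝ) * ((Nat.factorial 10 : ℝ) * ((10 : ℕ) : ℝ))⁻¹) = 11 / 36288000 := by
      norm_num [Nat.factorial]
    rw [e]
    calc |y| ^ 10 * (11 / 36288000 : ℝ) ≤ (1 / 8) ^ 10 * (11 / 36288000) :=
          mul_le_mul_of_nonneg_right hy10 (by norm_num)
      _ ≤ _ := by norm_num
  have hb2 := hb.trans hB
  set A : ℝ := 1 - y ^ 2 / 2 + y ^ 4 / 24 - y ^ 6 / 720 + y ^ 8 / 40320
  set Bs : ℝ := y - y ^ 3 / 6 + y ^ 5 / 120 - y ^ 7 / 5040 + y ^ 9 / 362880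
  have e : ((Real.cos y : ℂ) + (Real.sin y : ℂ) * Complex.I) - ((A : ℂ) + (Bs : ℂ) * Complex.I)
      = ((Real.cos y - A : ℝ) : ℂ) + ((Real.sin y - Bs : ℝ) : ℂ) * Complex.I := by
    push_cast; ring
  rw [e] at hb2
  constructor
  · have := Complex.abs_re_le_norm (((Real.cos y - A : ℝ) : ℂ) + ((Real.sin y - Bs : ℝ) : ℂ) * Complex.I)
    have e2 : (((Real.cos y - A : ℝ) : ℂ) + ((Real.sin y - Bs : ℝ) : ℂ) * Complex.I).re = Real.cos y - A := by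
      rw [Complex.add_re, Complex.re_ofReal_mul, Complex.I_re, Complex.ofReal_re]
      ring
    rw [e2] at this
    exact this.trans hb2
  · have := Complex.abs_im_le_norm (((Real.cos y - A : ℝ) : ℂ) + ((Real.sin y - Bs : ℝ) : ℂ) * Complex.I)
    have e2 : (((Real.cos y - A : ℝ) : ℂ) + ((Real.sin y - Bs : ℝ) : ℂ) * Complex.I).im = Real.sin y - Bs := by
      rw [Complex.add_im, Complex.im_ofReal_mul, Complex.I_im, Complex.ofReal_im]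
      ring
    rw [e2] at this
    exact this.trans hb2

theorem chS_sound (X : ℤ) (Y : ℕ) (hY : 0 < Y) (c s : ℤ) (h : chS X Y c s = true)
    (hX : |(X : ℝ) / Y| ≤ 1 / 8) :
    |(2 : ℝ) ^ 48 * Real.cos ((X : ℝ) / Y) - c| ≤ 21 / 10 ∧
    |(2 : ℝ) ^ 48 * Real.sin ((X : ℝ) / Y) - s| ≤ 21 / 10 := by
  unfold chS at h
  rw [Bool.and_eq_true, near_iff, near_iff] at h
  obtain ⟨h1, h2⟩ := h
  have hY' : (0 : ℝ) < Y := by exact_mod_cast hY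
  obtain ⟨t1, t2⟩ := taylor_cs ((X : ℝ) / Y) hX
  set y : ℝ := (X : ℝ) / Y with hy
  have hXy : (X : ℝ) = y * Y := by rw [hy]; field_simp
  have h1' : |(c : ℝ) * (40320 * (Y : ℝ) ^ 8) - 2 ^ 48 * (40320 * (Y : ℝ) ^ 8 - 20160 * (X : ℝ) ^ 2 * (Y : ℝ) ^ 6
      + 1680 * (X : ℝ) ^ 4 * (Y : ℝ) ^ 4 - 56 * (X : ℝ) ^ 6 * (Y : ℝ) ^ 2 + (X : ℝ) ^ 8)|
      ≤ 2 * (40320 * (Y : ℝ) ^ 8) := by exact_mod_cast h1
  have h2' : |(s : ℝ) * (362880 * (Y : ℝ) ^ 9) - 2 ^ 48 * (362880 * (X : ℝ) * (Y : ℝ) ^ 8 - 60480 * (X : ℝ) ^ 3 * (Y : ℝ) ^ 6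
      + 3024 * (X : ℝ) ^ 5 * (Y : ℝ) ^ 4 - 72 * (X : ℝ) ^ 7 * (Y : ℝ) ^ 2 + (X : ℝ) ^ 9)|
      ≤ 2 * (362880 * (Y : ℝ) ^ 9) := by exact_mod_cast h2
  rw [hXy] at h1' h2'
  have e1 : (c : ℝ) * (40320 * (Y : ℝ) ^ 8) - 2 ^ 48 * (40320 * (Y : ℝ) ^ 8 - 20160 * (y * Y) ^ 2 * (Y : ℝ) ^ 6
      + 1680 * (y * Y) ^ 4 * (Y : ℝ) ^ 4 - 56 * (y * Y) ^ 6 * (Y : ℝ) ^ 2 + (y * Y) ^ 8)
      = (c - 2 ^ 48 * (1 - y ^ 2 / 2 + y ^ 4 / 24 - y ^ 6 / 720 + y ^ 8 / 40320)) * (40320 * (Y : ℝ) ^ 8) := by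
    ring
  have e2 : (s : ℝ) * (362880 * (Y : ℝ) ^ 9) - 2 ^ 48 * (362880 * (y * Y) * (Y : ℝ) ^ 8 - 60480 * (y * Y) ^ 3 * (Y : ℝ) ^ 6
      + 3024 * (y * Y) ^ 5 * (Y : ℝ) ^ 4 - 72 * (y * Y) ^ 7 * (Y : ℝ) ^ 2 + (y * Y) ^ 9)
      = (s - 2 ^ 48 * (y - y ^ 3 / 6 + y ^ 5 / 120 - y ^ 7 / 5040 + y ^ 9 / 362880)) * (362880 * (Y : ℝ) ^ 9) := by
    ring
  have p1 : (0 : ℝ) < 40320 * (Y : ℝ) ^ 8 := by positivity
  have p2 : (0 : ℝ) < 362880 * (Y : ℝ) ^ 9 := by positivity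
  rw [e1, abs_mul, abs_of_pos p1] at h1'
  rw [e2, abs_mul, abs_of_pos p2] at h2'
  have g1 := le_of_mul_le_mul_right h1' p1
  have g2 := le_of_mul_le_mul_right h2' p2
  rw [abs_le] at g1 g2 t1 t2
  have hp : (0 : ℝ) < 2 ^ 48 := by positivity
  constructor
  · rw [abs_le]
    constructor <;> nlinarith
  · rw [abs_le]
    constructor <;> nlinarith

/-- error of the recursion -/
theorem rec_sound (Nc Ns Nt : ℕ) (c1 s1 : ℤ) (y : ℝ)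
    (hc1 : |(2 : ℝ) ^ 48 * Real.cos y - c1| ≤ 21 / 10) (hs1 : |(2 : ℝ) ^ 48 * Real.sin y - s1| ≤ 21 / 10) :
    ∀ q : ℕ, 7 * (q : ℝ) ≤ 2 ^ 41 → recOK Nc Ns Nt c1 s1 q = true →
      ‖(2 : ℂ) ^ 48 * Complex.exp (((q * y : ℝ) : ℂ) * Complex.I) - ((gT Nc q : ℂ) + (gT Ns q : ℂ) * Complex.I)‖ ≤ 7 * q ∧
      |(2 : ℤ) ^ 48 * gT Nt q - R3 * gT Ns q| ≤ 2 ^ 49 := by
  have hP : (0 : ℝ) < 2 ^ 48 := by positivity
  have he1 : ‖(2 : ℂ) ^ 48 * Complex.exp ((y : ℂ) * Complex.I) - ((c1 : ℂ) + (s1 : ℂ) * Complex.I)‖ ≤ 3 := by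
    have e : (2 : ℂ) ^ 48 * Complex.exp ((y : ℂ) * Complex.I) - ((c1 : ℂ) + (s1 : ℂ) * Complex.I)
        = (((2 : ℝ) ^ 48 * Real.cos y - c1 : ℝ) : ℂ) + (((2 : ℝ) ^ 48 * Real.sin y - s1 : ℝ) : ℂ) * Complex.I := by
      rw [Complex.exp_mul_I]
      push_cast
      ring
    rw [e, ← Real.sqrt_sq (norm_nonneg _), ← Complex.normSq_eq_norm_sq, Complex.normSq_add_mul_I]
    apply Real.sqrt_le_iff.2
    refine ⟨by norm_num, ?_⟩
    have a1 : ((2 : ℝ) ^ 48 * Real.cos y - c1) ^ 2 ≤ (21 / 10) ^ 2 := by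
      rw [← sq_abs]; exact pow_le_pow_left₀ (abs_nonneg _) hc1 2
    have a2 : ((2 : ℝ) ^ 48 * Real.sin y - s1) ^ 2 ≤ (21 / 10) ^ 2 := by
      rw [← sq_abs]; exact pow_le_pow_left₀ (abs_nonneg _) hs1 2
    linarith
  intro q
  induction q with
  | zero =>
    intro _ h
    unfold recOK at h
    simp only [Bool.and_eq_true, near_iff] at h
    obtain ⟨h1, h2, h3⟩ := h
    have e1 : gT Nc 0 = 2 ^ 48 := by
      have := abs_nonpos_iff.1 (by simpa using h1 : |gT Nc 0 - 2 ^ 48| ≤ 0)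
      linarith
    have e2 : gT Ns 0 = 0 := by
      have := abs_nonpos_iff.1 (by simpa using h2 : |gT Ns 0| ≤ 0)
      exact this
    refine ⟨?_, by exact_mod_cast h3⟩
    rw [e1, e2]
    norm_num
  | succ q ih =>
    intro hq h
    rw [recOK] at h
    simp only [Bool.and_eq_true, near_iff] at h
    obtain ⟨h0, h1, h2, h3⟩ := h
    have hq' : 7 * (q : ℝ) ≤ 2 ^ 41 := by
      push_cast at hq
      linarith
    obtain ⟨ih1, _⟩ := ih hq' h0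
    refine ⟨?_, by exact_mod_cast h3⟩
    set z : ℂ := (gT Nc q : ℂ) + (gT Ns q : ℂ) * Complex.I with hz
    set z1 : ℂ := (c1 : ℂ) + (s1 : ℂ) * Complex.I with hz1
    set z' : ℂ := (gT Nc (q + 1) : ℂ) + (gT Ns (q + 1) : ℂ) * Complex.I with hz'
    set W : ℂ := Complex.exp (((q * y : ℝ) : ℂ) * Complex.I) with hW
    set w : ℂ := Complex.exp ((y : ℂ) * Complex.I) with hw
    have hWn : ‖W‖ = 1 := by rw [hW]; exact Complex.norm_exp_ofReal_mul_I _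
    have hwn : ‖w‖ = 1 := by rw [hw]; exact Complex.norm_exp_ofReal_mul_I _
    have hWw : Complex.exp ((((q + 1 : ℕ) * y : ℝ) : ℂ) * Complex.I) = W * w := by
      rw [hW, hw, ← Complex.exp_add]
      congr 1
      push_cast
      ring
    rw [hWw]
    have hr : ‖(2 : ℂ) ^ 48 * z' - z * z1‖ ≤ 3 * 2 ^ 48 := by
      have e : (2 : ℂ) ^ 48 * z' - z * z1
          = ((((2 : ℤ) ^ 48 * gT Nc (q + 1) - (gT Nc q * c1 - gT Ns q * s1) : ℤ) : ℝ) : ℂ)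
            + ((((2 : ℤ) ^ 48 * gT Ns (q + 1) - (gT Ns q * c1 + gT Nc q * s1) : ℤ) : ℝ) : ℂ) * Complex.I := by
        have hI : Complex.I * Complex.I = -1 := Complex.I_mul_I
        rw [hz, hz1, hz']
        push_cast
        linear_combination (-(gT Ns q : ℂ) * s1) * hI
      rw [e, ← Real.sqrt_sq (norm_nonneg _), ← Complex.normSq_eq_norm_sq, Complex.normSq_add_mul_I]
      apply Real.sqrt_le_iff.2
      refine ⟨by positivity, ?_⟩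
      have a1 : |(((2 : ℤ) ^ 48 * gT Nc (q + 1) - (gT Nc q * c1 - gT Ns q * s1) : ℤ) : ℝ)| ≤ 2 ^ 49 := by
        exact_mod_cast h1
      have a2 : |(((2 : ℤ) ^ 48 * gT Ns (q + 1) - (gT Ns q * c1 + gT Nc q * s1) : ℤ) : ℝ)| ≤ 2 ^ 49 := by
        exact_mod_cast h2
      have b1 := pow_le_pow_left₀ (abs_nonneg _) a1 2
      have b2 := pow_le_pow_left₀ (abs_nonneg _) a2 2
      rw [sq_abs] at b1 b2
      have : ((2 : ℝ) ^ 49) ^ 2 + ((2 : ℝ) ^ 49) ^ 2 ≤ (3 * 2 ^ 48) ^ 2 := by norm_num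
      linarith
    have hzn : ‖z‖ ≤ 2 ^ 48 + 7 * q := by
      have : z = (2 : ℂ) ^ 48 * W - ((2 : ℂ) ^ 48 * W - z) := by ring
      rw [this]
      refine (norm_sub_le _ _).trans ?_
      rw [norm_mul, hWn, mul_one]
      have : ‖(2 : ℂ) ^ 48‖ = 2 ^ 48 := by
        rw [norm_pow]; norm_num
      rw [this]
      linarith
    have key : (2 : ℂ) ^ 48 * (W * w) - z'
        = ((2 : ℂ) ^ 48 * W - z) * w + z * ((2 : ℂ) ^ 48 * w - z1) / 2 ^ 48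
          - ((2 : ℂ) ^ 48 * z' - z * z1) / 2 ^ 48 := by
      field_simp
      ring
    rw [key]
    have n48 : ‖(2 : ℂ) ^ 48‖ = 2 ^ 48 := by rw [norm_pow]; norm_num
    refine (norm_sub_le _ _).trans ?_
    have m1 : ‖((2 : ℂ) ^ 48 * z' - z * z1) / 2 ^ 48‖ ≤ 3 := by
      rw [norm_div, n48, div_le_iff₀ hP]
      exact hr
    have m2 : ‖((2 : ℂ) ^ 48 * W - z) * w + z * ((2 : ℂ) ^ 48 * w - z1) / 2 ^ 48‖ ≤ 7 * q + 4 := by
      refine (norm_add_le _ _).trans ?_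
      rw [norm_mul, hwn, mul_one, norm_div, n48, norm_mul]
      have a1 : ‖z‖ * ‖(2 : ℂ) ^ 48 * w - z1‖ / 2 ^ 48 ≤ 4 := by
        rw [div_le_iff₀ hP]
        have : ‖z‖ * ‖(2 : ℂ) ^ 48 * w - z1‖ ≤ (2 ^ 48 + 7 * q) * 3 :=
          mul_le_mul hzn he1 (norm_nonneg _) (by positivity)
        refine this.trans ?_
        have : (7 : ℝ) * q * 3 ≤ 2 ^ 48 := by
          have : (2 : ℝ) ^ 41 * 3 ≤ 2 ^ 48 := by norm_num
          linarith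
        linarith
      exact add_le_add ih1 a1
    push_cast
    linarith

theorem chT_sound (dn : ℤ) (dd : ℕ) (Nc Ns Nt Q E : ℕ) (h : chT dn dd Nc Ns Nt Q E = true) :
    ∀ q : ℕ, q ≤ Q →
      |(2 : ℝ) ^ 48 * Real.cos ((q : ℝ) * (((dn : ℝ) / dd) / 2)) - gT Nc q| ≤ E ∧
      |(2 : ℝ) ^ 48 * (Real.sqrt 3 * Real.sin ((q : ℝ) * (((dn : ℝ) / dd) / 2))) - gT Nt q| ≤ E := by
  unfold chT at h
  simp only [Bool.and_eq_true] at h
  obtain ⟨h1, h2, h3, h4, h5, h6⟩ := h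
  have h1 := Nat.le_of_ble_eq_true h1
  have h2 := Nat.le_of_ble_eq_true h2
  have h3 := Nat.le_of_ble_eq_true h3
  have h4 := Nat.le_of_ble_eq_true h4
  have hdd : (0 : ℝ) < dd := by exact_mod_cast h1
  have hx : ((dn : ℝ) / dd) / 2 = (dn : ℝ) / ((2 * dd : ℕ) : ℝ) := by
    push_cast
    field_simp
  have habs : |(dn : ℝ) / ((2 * dd : ℕ) : ℝ)| ≤ 1 / 8 := by
    have hp : (0 : ℝ) < ((2 * dd : ℕ) : ℝ) := by push_cast; linarith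
    rw [abs_div, abs_of_pos hp, div_le_iff₀ hp]
    have h2' : 4 * |(dn : ℝ)| ≤ dd := by
      have e : ((dn.natAbs : ℕ) : ℝ) = |(dn : ℝ)| := by
        rw [Nat.cast_natAbs, Int.cast_abs]
      have : ((4 * dn.natAbs : ℕ) : ℝ) ≤ (dd : ℝ) := by exact_mod_cast h2
      push_cast at this
      have e' : ((|dn| : ℤ) : ℝ) = |(dn : ℝ)| := Int.cast_abs
      linarith
    push_cast
    linarith
  obtain ⟨s1, s2⟩ := chS_sound dn (2 * dd) (by omega) _ _ h5 habs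
  rw [hx]
  have hmono : ∀ n m : ℕ, m ≤ n → recOK Nc Ns Nt (gT Nc 1) (gT Ns 1) n = true →
      recOK Nc Ns Nt (gT Nc 1) (gT Ns 1) m = true := by
    intro n
    induction n with
    | zero =>
      intro m hm h
      have : m = 0 := by omega
      rw [this]; exact h
    | succ n ih =>
      intro m hm h
      rcases Nat.lt_or_ge m (n + 1) with hlt | hge
      · rw [recOK, Bool.and_eq_true] at h
        exact ih m (by omega) h.1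
      · have : m = n + 1 := by omega
        rw [this]; exact h
  intro q hq
  have hE : (14 * (Q : ℝ) + 10) ≤ E := by exact_mod_cast h3
  have hE2 : (E : ℝ) ≤ 2 ^ 40 := by exact_mod_cast h4
  have hqQ : (q : ℝ) ≤ Q := by exact_mod_cast hq
  have hQ0 : (0 : ℝ) ≤ (Q : ℝ) := Nat.cast_nonneg _
  obtain ⟨k1, k2⟩ := rec_sound Nc Ns Nt _ _ ((dn : ℝ) / ((2 * dd : ℕ) : ℝ)) s1 s2 q (by
    have : (2 : ℝ) ^ 40 ≤ 2 ^ 41 := by norm_num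
    linarith) (hmono Q q hq h6)
  set x : ℝ := (q : ℝ) * ((dn : ℝ) / ((2 * dd : ℕ) : ℝ)) with hxdef
  have e : (2 : ℂ) ^ 48 * Complex.exp ((x : ℂ) * Complex.I) - ((gT Nc q : ℂ) + (gT Ns q : ℂ) * Complex.I)
      = (((2 : ℝ) ^ 48 * Real.cos x - gT Nc q : ℝ) : ℂ)
        + (((2 : ℝ) ^ 48 * Real.sin x - gT Ns q : ℝ) : ℂ) * Complex.I := by
    rw [Complex.exp_mul_I]
    push_cast
    ring
  rw [e] at k1
  have c1 : |(2 : ℝ) ^ 48 * Real.cos x - gT Nc q| ≤ 7 * q := by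
    have := Complex.abs_re_le_norm ((((2 : ℝ) ^ 48 * Real.cos x - gT Nc q : ℝ) : ℂ)
        + (((2 : ℝ) ^ 48 * Real.sin x - gT Ns q : ℝ) : ℂ) * Complex.I)
    rw [Complex.add_re, Complex.re_ofReal_mul, Complex.I_re, Complex.ofReal_re, mul_zero, add_zero] at this
    exact this.trans k1
  have c2 : |(2 : ℝ) ^ 48 * Real.sin x - gT Ns q| ≤ 7 * q := by
    have := Complex.abs_im_le_norm ((((2 : ℝ) ^ 48 * Real.cos x - gT Nc q : ℝ) : ℂ)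
        + (((2 : ℝ) ^ 48 * Real.sin x - gT Ns q : ℝ) : ℂ) * Complex.I)
    rw [Complex.add_im, Complex.im_ofReal_mul, Complex.I_im, Complex.ofReal_im, mul_one, zero_add] at this
    exact this.trans k1
  refine ⟨by linarith, ?_⟩
  have k2' : |(2 : ℝ) ^ 48 * (gT Nt q : ℝ) - (R3 : ℝ) * (gT Ns q : ℝ)| ≤ 2 ^ 49 := by exact_mod_cast k2
  -- `√3` and `R3`
  have hs3 : Real.sqrt 3 ^ 2 = 3 := Real.sq_sqrt (by norm_num)
  have hs0 := Real.sqrt_nonneg 3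
  have hR1 : (R3 : ℝ) ≤ 2 ^ 48 * Real.sqrt 3 := by
    apply le_of_sq_le_sq _ (by positivity)
    rw [mul_pow, hs3]
    unfold R3
    norm_num
  have hR2 : 2 ^ 48 * Real.sqrt 3 ≤ (R3 : ℝ) + 1 := by
    apply le_of_sq_le_sq _ (by unfold R3; norm_num)
    rw [mul_pow, hs3]
    unfold R3
    norm_num
  have hs2 : Real.sqrt 3 ≤ 7 / 4 := by
    rw [Real.sqrt_le_left (by norm_num)]
    norm_num
  have hsn : |(gT Ns q : ℝ)| ≤ 2 ^ 48 + 7 * q := by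
    have : |(2 : ℝ) ^ 48 * Real.sin x| ≤ 2 ^ 48 := by
      rw [abs_mul]
      have h1 := Real.abs_sin_le_one x
      have : |(2 : ℝ) ^ 48| = 2 ^ 48 := abs_of_pos (by positivity)
      rw [this]
      nlinarith [abs_nonneg (Real.sin x)]
    have e : (gT Ns q : ℝ) = 2 ^ 48 * Real.sin x - (2 ^ 48 * Real.sin x - gT Ns q) := by ring
    rw [e]
    refine (abs_sub _ _).trans ?_
    linarith
  have hdiff : |Real.sqrt 3 * (gT Ns q : ℝ) - (R3 : ℝ) * (gT Ns q : ℝ) / 2 ^ 48| ≤ 2 := by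
    have e : Real.sqrt 3 * (gT Ns q : ℝ) - (R3 : ℝ) * (gT Ns q : ℝ) / 2 ^ 48
        = (2 ^ 48 * Real.sqrt 3 - R3) * (gT Ns q : ℝ) / 2 ^ 48 := by
      field_simp
    rw [e, abs_div, abs_mul]
    have hp : |(2 : ℝ) ^ 48| = 2 ^ 48 := abs_of_pos (by positivity)
    rw [hp, div_le_iff₀ (by positivity)]
    have h1 : |2 ^ 48 * Real.sqrt 3 - (R3 : ℝ)| ≤ 1 := by
      rw [abs_le]; constructor <;> linarith
    calc |2 ^ 48 * Real.sqrt 3 - (R3 : ℝ)| * |(gT Ns q : ℝ)| ≤ 1 * (2 ^ 48 + 7 * q) :=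
          mul_le_mul h1 hsn (abs_nonneg _) (by norm_num)
      _ ≤ 2 * 2 ^ 48 := by
        have : (7 : ℝ) * q ≤ 2 ^ 48 := by
          have : (2 : ℝ) ^ 40 ≤ 2 ^ 48 := by norm_num
          linarith
        linarith
  have ht : |(R3 : ℝ) * (gT Ns q : ℝ) / 2 ^ 48 - gT Nt q| ≤ 2 := by
    have e : (R3 : ℝ) * (gT Ns q : ℝ) / 2 ^ 48 - gT Nt q
        = -((2 : ℝ) ^ 48 * (gT Nt q : ℝ) - (R3 : ℝ) * (gT Ns q : ℝ)) / 2 ^ 48 := by
      field_simp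
      ring
    rw [e, abs_div, abs_neg]
    have hp : |(2 : ℝ) ^ 48| = 2 ^ 48 := abs_of_pos (by positivity)
    rw [hp, div_le_iff₀ (by positivity)]
    have : (2 : ℝ) * 2 ^ 48 = 2 ^ 49 := by norm_num
    linarith
  have hmain : |(2 : ℝ) ^ 48 * (Real.sqrt 3 * Real.sin x) - Real.sqrt 3 * (gT Ns q : ℝ)| ≤ 7 / 4 * (7 * q) := by
    have e : (2 : ℝ) ^ 48 * (Real.sqrt 3 * Real.sin x) - Real.sqrt 3 * (gT Ns q : ℝ)
        = Real.sqrt 3 * ((2 : ℝ) ^ 48 * Real.sin x - gT Ns q) := by ring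
    rw [e, abs_mul, abs_of_nonneg hs0]
    exact mul_le_mul hs2 c2 (abs_nonneg _) (by norm_num)
  have e : (2 : ℝ) ^ 48 * (Real.sqrt 3 * Real.sin x) - gT Nt q
      = ((2 : ℝ) ^ 48 * (Real.sqrt 3 * Real.sin x) - Real.sqrt 3 * (gT Ns q : ℝ))
        + (Real.sqrt 3 * (gT Ns q : ℝ) - (R3 : ℝ) * (gT Ns q : ℝ) / 2 ^ 48)
        + ((R3 : ℝ) * (gT Ns q : ℝ) / 2 ^ 48 - gT Nt q) := by ring
  rw [e]
  refine (abs_add_le _ _).trans ?_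
  have := abs_add_le ((2 : ℝ) ^ 48 * (Real.sqrt 3 * Real.sin x) - Real.sqrt 3 * (gT Ns q : ℝ))
    (Real.sqrt 3 * (gT Ns q : ℝ) - (R3 : ℝ) * (gT Ns q : ℝ) / 2 ^ 48)
  linarith

end Helper76.RC.TrigT
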