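import Pool.Agent.Helper54.RC.Fast4
import Pool.Agent.Helper76.RC.ExpF
import Pool.Agent.Helper41.SH.Inv

/-!
# Alignments given by real trigonometric polynomials

`Dt Q l x = (∑_k c_k cos (k x) + s_k sin (k x)) / Q` for the list `l` of the pairs `(c_k, s_k)`, `k = 1, 2, …`.
* `zD b l : FP` is the polynomial `2 Q Dt` in helper54's format;
* `re_ge`: lower bounds of real parts by squares (Fejér-Riesz data), checked in the kernel;
* `IA_of`: `Θ x = x - Dt Q l x` is an inverse alignment (helper41's `IA`) with `σ ≤ Θ' ≤ ρ`;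
* `expD_sound`: kernel approximation of `exp (-i Dt)`.
-/

set_option autoImplicit false

open Helper49.LT

namespace Helper76.RC.TrD

open Helper76.RC.TPoly Helper54.RC.Fast Helper76.RC.ExpF

/-! ## Real trigonometric polynomials from integer data -/

/-- `∑ (c_k cos (k x) + s_k sin (k x))`, the first frequency is `k` -/
noncomputable def DA : ℕ → List (ℤ × ℤ) → ℝ → ℝ
  | _, [], _ => 0
  | k, p :: l, x => (p.1 : ℝ) * Real.cos (k * x) + (p.2 : ℝ) * Real.sin (k * x) + DA (k + 1) l x

/-- the real trigonometric polynomial with the data `l` over `Q` -/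
noncomputable def Dt (Q : ℕ) (l : List (ℤ × ℤ)) (x : ℝ) : ℝ := DA 1 l x / Q

/-- the data of the derivative -/
def der : ℕ → List (ℤ × ℤ) → List (ℤ × ℤ)
  | _, [] => []
  | k, p :: l => (Int.mul (Int.ofNat k) p.2, Int.neg (Int.mul (Int.ofNat k) p.1)) :: der (Nat.succ k) l

theorem hasDerivAt_DA (k : ℕ) (l : List (ℤ × ℤ)) (x : ℝ) : HasDerivAt (DA k l) (DA k (der k l) x) x := by
  induction l generalizing k with
  | nil => exact hasDerivAt_const x 0
  | cons p l ih =>
    have h1 : HasDerivAt (fun y : ℝ => (k : ℝ) * y) k x := by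
      simpa using (hasDerivAt_id x).const_mul (k : ℝ)
    have h2 := (h1.cos.const_mul (p.1 : ℝ)).add (h1.sin.const_mul (p.2 : ℝ))
    have h3 := h2.add (ih (k + 1))
    refine h3.congr_deriv ?_
    have e1 : ((Int.mul (Int.ofNat k) p.2 : ℤ) : ℝ) = (k : ℝ) * p.2 := by
      have : (Int.mul (Int.ofNat k) p.2 : ℤ) = (k : ℤ) * p.2 := rfl
      rw [this]; push_cast; rfl
    have e2 : ((Int.neg (Int.mul (Int.ofNat k) p.1) : ℤ) : ℝ) = -((k : ℝ) * p.1) := by
      have : (Int.neg (Int.mul (Int.ofNat k) p.1) : ℤ) = -((k : ℤ) * p.1) := rfl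
      rw [this]; push_cast; rfl
    simp only [der, DA, e1, e2]
    ring

theorem hasDerivAt_Dt (Q : ℕ) (l : List (ℤ × ℤ)) (x : ℝ) : HasDerivAt (Dt Q l) (Dt Q (der 1 l) x) x :=
  (hasDerivAt_DA 1 l x).div_const _

theorem DA_per (k : ℕ) (l : List (ℤ × ℤ)) (x : ℝ) : DA k l (x + 2 * Real.pi) = DA k l x := by
  induction l generalizing k with
  | nil => rfl
  | cons p l ih =>
    simp only [DA, ih]
    have e : (k : ℝ) * (x + 2 * Real.pi) = k * x + k * (2 * Real.pi) := by ring
    rw [e, Real.cos_add_nat_mul_two_pi, Real.sin_add_nat_mul_two_pi]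

theorem Dt_per (Q : ℕ) (l : List (ℤ × ℤ)) (x : ℝ) : Dt Q l (x + 2 * Real.pi) = Dt Q l x := by
  unfold Dt; rw [DA_per]

theorem continuous_DA (k : ℕ) (l : List (ℤ × ℤ)) : Continuous (DA k l) :=
  continuous_iff_continuousAt.2 fun x => (hasDerivAt_DA k l x).continuousAt

theorem continuous_Dt (Q : ℕ) (l : List (ℤ × ℤ)) : Continuous (Dt Q l) := (continuous_DA 1 l).div_const _

/-! ## The packed form -/

/-- real parts of `2 Q Dt` -/
def lre (l : List (ℤ × ℤ)) : List ℤ := (l.map Prod.fst).reverse ++ 0 :: l.map Prod.fst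
/-- imaginary parts of `2 Q Dt` -/
def lim (l : List (ℤ × ℤ)) : List ℤ := (l.map Prod.snd).reverse ++ 0 :: negL (l.map Prod.snd)
/-- the polynomial `2 Q Dt` -/
def zD (b : ℕ) (l : List (ℤ × ℤ)) : FP := ofL b l.length (lre l) (lim l)
/-- its check -/
def okD (b : ℕ) (l : List (ℤ × ℤ)) : Bool := bif rng b (lre l) then rng b (lim l) else false

theorem ee_mul_ee_neg (t : ℝ) : ee t * ee (-t) = 1 := by
  rw [← ee_add]
  simp [ee_zero]

theorem T_sym (l m : List ℤ) (t : ℝ) :
    ee (-((l.length : ℝ) * t)) * evr (ee t) (l.reverse ++ 0 :: m) =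
      ee (-t) * evr (ee (-t)) l + ee t * evr (ee t) m := by
  rw [evr_append, List.length_reverse]
  have h1 := evr_reverse (ee t) (ee (-t)) (ee_mul_ee_neg t) l
  have h2 := ee_neg_mul_pow l.length t
  have h3 := ee_mul_ee_neg t
  simp only [evr, Int.cast_zero, zero_add]
  have h4 : evr (ee t) l.reverse = ee (-t) * (ee t ^ l.length * evr (ee (-t)) l) := by
    rw [← h1, ← mul_assoc, mul_comm (ee (-t)), mul_assoc, mul_comm (ee (-t)), h3, mul_one]
  rw [h4]
  linear_combination (ee (-t) * evr (ee (-t)) l + ee t * evr (ee t) m) * h2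

theorem ee_nat_mul' (k : ℕ) (t : ℝ) : ee ((k : ℝ) * t) = Complex.cos (k * t) + Complex.sin (k * t) * Complex.I := by
  unfold ee
  rw [← Complex.exp_mul_I]
  congr 1
  push_cast
  ring

/-- the sum of both halves -/
theorem DA_sum (k : ℕ) (l : List (ℤ × ℤ)) (t : ℝ) :
    (ee (-((k : ℝ) * t)) * evr (ee (-t)) (l.map Prod.fst) + ee ((k : ℝ) * t) * evr (ee t) (l.map Prod.fst)) +
      Complex.I * (ee (-((k : ℝ) * t)) * evr (ee (-t)) (l.map Prod.snd) +
        ee ((k : ℝ) * t) * evr (ee t) (negL (l.map Prod.snd))) = ((2 * DA k l t : ℝ) : ℂ) := by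
  induction l generalizing k with
  | nil => simp [evr, DA, negL]
  | cons p l ih =>
    have ih := ih (k + 1)
    have e1 : ee (-(((k + 1 : ℕ) : ℝ) * t)) = ee (-((k : ℝ) * t)) * ee (-t) := by
      rw [← ee_add]; congr 1; push_cast; ring
    have e2 : ee (((k + 1 : ℕ) : ℝ) * t) = ee ((k : ℝ) * t) * ee t := by
      rw [← ee_add]; congr 1; push_cast; ring
    rw [e1, e2] at ih
    have e3 : negL ((p :: l).map Prod.snd) = (-p.2) :: negL (l.map Prod.snd) := rfl
    rw [e3]
    simp only [List.map_cons, evr, DA]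
    have c1 : ee ((k : ℝ) * t) = Complex.cos (k * t) + Complex.sin (k * t) * Complex.I := ee_nat_mul' k t
    have c2 : ee (-((k : ℝ) * t)) = Complex.cos (k * t) - Complex.sin (k * t) * Complex.I := by
      unfold ee
      have : Complex.cos (k * t) - Complex.sin (k * t) * Complex.I = Complex.exp (-(k * t) * Complex.I) := by
        rw [Complex.exp_mul_I, Complex.cos_neg, Complex.sin_neg]
        ring
      rw [this]
      congr 1
      push_cast
      ring
    have hI : Complex.I * Complex.I = -1 := Complex.I_mul_I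
    push_cast at ih ⊢
    have key : (ee (-((k : ℝ) * t)) + ee ((k : ℝ) * t)) = 2 * Complex.cos (k * t) := by rw [c1, c2]; ring
    have key2 : Complex.I * (ee (-((k : ℝ) * t)) - ee ((k : ℝ) * t)) = 2 * Complex.sin (k * t) := by
      rw [c1, c2]
      linear_combination (-2 * Complex.sin (k * t)) * hI
    linear_combination ih + (p.1 : ℂ) * key + (p.2 : ℂ) * key2

theorem zD_sound (b Q : ℕ) (hQ : 0 < Q) (l : List (ℤ × ℤ)) (h : okD b l = true) :
    wf b (zD b l) = true ∧ ∀ t, V b (zD b l) t = ((2 * Q * Dt Q l t : ℝ) : ℂ) := by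
  have hb : ∀ (x y : Bool), (bif x then y else false) = true ↔ x = true ∧ y = true := by
    intro x y; cases x <;> simp
  unfold okD at h
  rw [hb] at h
  have h1 : (lre l).length = len l.length := by
    simp only [lre, List.length_append, List.length_reverse, List.length_map, List.length_cons, len_eq]
    omega
  have h2 : (lim l).length = len l.length := by
    simp only [lim, List.length_append, List.length_reverse, List.length_map, List.length_cons, len_eq,
      length_negL]
    omega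
  obtain ⟨k1, k2⟩ := ofL_sound b l.length (lre l) (lim l) h1 h2 h.1 h.2
  refine ⟨k1, fun t => ?_⟩
  show V b (ofL b l.length (lre l) (lim l)) t = _
  rw [k2]
  unfold T TP.ev
  simp only [lre, lim]
  have a1 := T_sym (l.map Prod.fst) (l.map Prod.fst) t
  have a2 := T_sym (l.map Prod.snd) (negL (l.map Prod.snd)) t
  rw [List.length_map] at a1 a2
  have e : (2 * Q * Dt Q l t : ℝ) = 2 * DA 1 l t := by
    unfold Dt
    have : (Q : ℝ) ≠ 0 := by exact_mod_cast hQ.ne'
    field_simp
  rw [e, ← DA_sum 1 l t]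
  have e1 : ee (-(((1 : ℕ) : ℝ) * t)) = ee (-t) := by norm_num
  have e2 : ee (((1 : ℕ) : ℝ) * t) = ee t := by norm_num
  rw [e1, e2]
  linear_combination a1 + Complex.I * a2

/-! ## Lower bounds by squares -/

/-- the difference `K p - |q|^2` -/
def dfS (b K : ℕ) (p q : FP) : FP := subF b (smF b K p) (mulF b q (cjF b q))
/-- the check of `K (V p) ≥ |V q|^2 - K δ` -/
def okS (b r K δ : ℕ) (p q : FP) : Bool :=
  bif Nat.ble r (Nat.succ b) then
    bif Nat.ble 1 K then
      bif wf b p then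
        bif wf b q then
          bif okn b r q then
            bif okm b r q (cjF b q) then
              bif oks b r K p then
                bif oka b r (smF b K p) (mulF b q (cjF b q)) then
                  Nat.ble (nrF b r (dfS b K p q)) (Nat.mul K δ)
                else false
              else false
            else false
          else false
        else false
      else false
    else false
  else false

theorem re_ge (b r K δ : ℕ) (p q : FP) (h : okS b r K δ p q = true) (t : ℝ) : -(δ : ℝ) ≤ (V b p t).re := by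
  have hb : ∀ (x y : Bool), (bif x then y else false) = true ↔ x = true ∧ y = true := by
    intro x y; cases x <;> simp
  unfold okS at h
  rw [hb, hb, hb, hb, hb, hb, hb, hb] at h
  obtain ⟨h1, h2, h3, h4, h5, h6, h7, h8, h9⟩ := h
  have hr : r ≤ b + 1 := Nat.le_of_ble_eq_true h1
  have hK : 0 < K := Nat.le_of_ble_eq_true h2
  have h9 : nrF b r (dfS b K p q) ≤ K * δ := Nat.le_of_ble_eq_true h9
  obtain ⟨c1, c2⟩ := cjF_sound b r hr q h5
  obtain ⟨m1, m2⟩ := mulF_sound b r hr q (cjF b q) h4 c1 h6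
  obtain ⟨s1, s2⟩ := smF_sound b r hr K p h3 h7
  obtain ⟨d1, d2⟩ := subF_sound b r hr _ _ s1 m1 h8
  have e1 : V b (dfS b K p q) t = K * V b p t - V b q t * (starRingEnd ℂ) (V b q t) := by
    show V b (subF b (smF b K p) (mulF b q (cjF b q))) t = _
    rw [d2, s2, m2, c2]
  have e2 := norm_V_le b r hr (dfS b K p q) t
  have e3 : -((K * δ : ℕ) : ℝ) ≤ (V b (dfS b K p q) t).re := by
    have := (abs_le.1 (Complex.abs_re_le_norm (V b (dfS b K p q) t))).1
    have h10 : (nrF b r (dfS b K p q) : ℝ) ≤ ((K * δ : ℕ) : ℝ) := by exact_mod_cast h9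
    linarith
  rw [e1, Complex.sub_re, Complex.mul_conj] at e3
  have e4 : ((K : ℂ) * V b p t).re = K * (V b p t).re := by
    rw [Complex.mul_re, Complex.natCast_re, Complex.natCast_im, zero_mul, sub_zero]
  rw [e4, Complex.ofReal_re] at e3
  have e5 := Complex.normSq_nonneg (V b q t)
  have hKr : (0 : ℝ) < K := by exact_mod_cast hK
  push_cast at e3
  have e6 : 0 ≤ (K : ℝ) * ((V b p t).re + δ) := by linarith
  have e7 := nonneg_of_mul_nonneg_right e6 hKr
  linarith

/-! ## Bounds of the derivative of the alignment -/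

/-- `2 Q (1 - D') - s`, in the window `2 M` -/
def pLo (b Q s M : ℕ) (l : List (ℤ × ℤ)) : FP :=
  subF b (cst b (Nat.mul 2 M) (Nat.sub (Nat.mul 2 Q) s)) (padF b (Nat.sub (Nat.mul 2 M) l.length) (zD b (der 1 l)))
/-- `s - 2 Q (1 - D')` -/
def pUp (b Q s M : ℕ) (l : List (ℤ × ℤ)) : FP :=
  addF b (cst b (Nat.mul 2 M) (Nat.sub s (Nat.mul 2 Q))) (padF b (Nat.sub (Nat.mul 2 M) l.length) (zD b (der 1 l)))

/-- the check of `Θ' ≥ (s - δ) / (2 Q)`, `q.N = M` -/
def okLo (b r K Q s δ : ℕ) (l : List (ℤ × ℤ)) (q : FP) : Bool :=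
  bif Nat.ble 1 Q then
    bif Nat.ble s (Nat.mul 2 Q) then
      bif Nat.ble (Nat.succ (Nat.mul 2 Q)) (Nat.pow 2 b) then
        bif Nat.ble l.length (Nat.mul 2 q.N) then
          bif okD b (der 1 l) then
            bif oka b r (cst b (Nat.mul 2 q.N) (Nat.sub (Nat.mul 2 Q) s))
              (padF b (Nat.sub (Nat.mul 2 q.N) l.length) (zD b (der 1 l))) then
              okS b r K δ (pLo b Q s q.N l) q
            else false
          else false
        else false
      else false
    else false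
  else false

/-- the check of `Θ' ≤ (s + δ) / (2 Q)`, `q.N = M` -/
def okUp (b r K Q s δ : ℕ) (l : List (ℤ × ℤ)) (q : FP) : Bool :=
  bif Nat.ble 1 Q then
    bif Nat.ble (Nat.mul 2 Q) s then
      bif Nat.ble (Nat.succ s) (Nat.pow 2 b) then
        bif Nat.ble l.length (Nat.mul 2 q.N) then
          bif okD b (der 1 l) then
            bif oka b r (cst b (Nat.mul 2 q.N) (Nat.sub s (Nat.mul 2 Q)))
              (padF b (Nat.sub (Nat.mul 2 q.N) l.length) (zD b (der 1 l))) then
              okS b r K δ (pUp b Q s q.N l) q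
            else false
          else false
        else false
      else false
    else false
  else false

theorem okLo_sound (b r K Q s δ : ℕ) (l : List (ℤ × ℤ)) (q : FP) (hr : r ≤ b + 1)
    (h : okLo b r K Q s δ l q = true) (t : ℝ) : ((s : ℝ) - δ) / (2 * Q) ≤ 1 - Dt Q (der 1 l) t := by
  have hb : ∀ (x y : Bool), (bif x then y else false) = true ↔ x = true ∧ y = true := by
    intro x y; cases x <;> simp
  unfold okLo at h
  rw [hb, hb, hb, hb, hb, hb] at h
  obtain ⟨h1, h2, h3, h4, h5, h6, h7⟩ := h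
  have hQ : 0 < Q := Nat.le_of_ble_eq_true h1
  have h2 : s ≤ 2 * Q := Nat.le_of_ble_eq_true h2
  have h3 : 2 * Q < 2 ^ b := Nat.le_of_ble_eq_true h3
  obtain ⟨z1, z2⟩ := zD_sound b Q hQ (der 1 l) h5
  obtain ⟨p1, p2⟩ := padF_sound b (Nat.sub (Nat.mul 2 q.N) l.length) _ z1
  obtain ⟨c1, c2⟩ := cst_sound b (Nat.mul 2 q.N) (Nat.sub (Nat.mul 2 Q) s)
    (lt_of_le_of_lt (Nat.sub_le _ _) h3)
  obtain ⟨d1, d2⟩ := subF_sound b r hr _ _ c1 p1 h6
  have h8 := re_ge b r K δ _ q h7 t
  have e : V b (pLo b Q s q.N l) t = ((2 * Q - s - 2 * Q * Dt Q (der 1 l) t : ℝ) : ℂ) := by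
    show V b (subF b _ _) t = _
    rw [d2, c2, p2, z2]
    have : ((Nat.sub (Nat.mul 2 Q) s : ℕ) : ℂ) = 2 * Q - s := by
      show ((2 * Q - s : ℕ) : ℂ) = _
      rw [Nat.cast_sub h2]
      push_cast
      rfl
    rw [this]
    push_cast
    ring
  rw [e, Complex.ofReal_re] at h8
  have hQr : (0 : ℝ) < 2 * Q := by
    have : (0 : ℝ) < Q := by exact_mod_cast hQ
    linarith
  rw [div_le_iff₀ hQr]
  linarith

theorem okUp_sound (b r K Q s δ : ℕ) (l : List (ℤ × ℤ)) (q : FP) (hr : r ≤ b + 1)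
    (h : okUp b r K Q s δ l q = true) (t : ℝ) : 1 - Dt Q (der 1 l) t ≤ ((s : ℝ) + δ) / (2 * Q) := by
  have hb : ∀ (x y : Bool), (bif x then y else false) = true ↔ x = true ∧ y = true := by
    intro x y; cases x <;> simp
  unfold okUp at h
  rw [hb, hb, hb, hb, hb, hb] at h
  obtain ⟨h1, h2, h3, h4, h5, h6, h7⟩ := h
  have hQ : 0 < Q := Nat.le_of_ble_eq_true h1
  have h2 : 2 * Q ≤ s := Nat.le_of_ble_eq_true h2
  have h3 : s < 2 ^ b := Nat.le_of_ble_eq_true h3
  obtain ⟨z1, z2⟩ := zD_sound b Q hQ (der 1 l) h5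
  obtain ⟨p1, p2⟩ := padF_sound b (Nat.sub (Nat.mul 2 q.N) l.length) _ z1
  obtain ⟨c1, c2⟩ := cst_sound b (Nat.mul 2 q.N) (Nat.sub s (Nat.mul 2 Q))
    (lt_of_le_of_lt (Nat.sub_le _ _) h3)
  obtain ⟨d1, d2⟩ := addF_sound b r hr _ _ c1 p1 h6
  have h8 := re_ge b r K δ _ q h7 t
  have e : V b (pUp b Q s q.N l) t = ((s - 2 * Q + 2 * Q * Dt Q (der 1 l) t : ℝ) : ℂ) := by
    show V b (addF b _ _) t = _
    rw [d2, c2, p2, z2]
    have : ((Nat.sub s (Nat.mul 2 Q) : ℕ) : ℂ) = s - 2 * Q := by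
      show ((s - 2 * Q : ℕ) : ℂ) = _
      rw [Nat.cast_sub h2]
      push_cast
      rfl
    rw [this]
    push_cast
    ring
  rw [e, Complex.ofReal_re] at h8
  have hQr : (0 : ℝ) < 2 * Q := by
    have : (0 : ℝ) < Q := by exact_mod_cast hQ
    linarith
  rw [le_div_iff₀ hQr]
  linarith

/-- the alignment `Θ` and its derivative -/
noncomputable def Th (Q : ℕ) (l : List (ℤ × ℤ)) (x : ℝ) : ℝ := x - Dt Q l x
noncomputable def Th' (Q : ℕ) (l : List (ℤ × ℤ)) (x : ℝ) : ℝ := 1 - Dt Q (der 1 l) x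

/-- **an inverse alignment from integer data** -/
theorem IA_of (b r K Q s δ : ℕ) (l : List (ℤ × ℤ)) (q : FP) (hr : r ≤ b + 1) (hs : δ < s)
    (h : okLo b r K Q s δ l q = true) : Helper41.SH.IA (Th Q l) (Th' Q l) where
  hd x := (hasDerivAt_id x).sub (hasDerivAt_Dt Q l x)
  hc := continuous_const.sub (continuous_Dt Q (der 1 l))
  pos x := by
    refine lt_of_lt_of_le ?_ (okLo_sound b r K Q s δ l q hr h x)
    have hb : ∀ (x y : Bool), (bif x then y else false) = true ↔ x = true ∧ y = true := by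
      intro x y; cases x <;> simp
    unfold okLo at h
    rw [hb] at h
    have hQ : 0 < Q := Nat.le_of_ble_eq_true h.1
    have hQr : (0 : ℝ) < Q := by exact_mod_cast hQ
    have : (δ : ℝ) < s := by exact_mod_cast hs
    apply div_pos <;> linarith
  per x := by
    unfold Th
    rw [Dt_per]
    ring

/-! ## `exp (-i D)` -/

/-- `- i 2 Q D` -/
def zE (b : ℕ) (l : List (ℤ × ℤ)) : FP := negF b (mulI b (zD b l))

/-- the check -/
def okX (b r s M S Q R n τ : ℕ) (l : List (ℤ × ℤ)) : Bool :=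
  bif Nat.ble 1 Q then
    bif okD b l then
      bif okn b r (zD b l) then
        bif okn b r (mulI b (zD b l)) then okE b r s M S (Nat.mul 2 Q) R n τ (zE b l) else false
      else false
    else false
  else false

/-- **`exp (-i D)` in the kernel** -/
theorem expD_sound (b r s M S Q R n τ : ℕ) (l : List (ℤ × ℤ)) (hr : r ≤ b + 1)
    (h : okX b r s M S Q R n τ l = true) :
    wf b (expF b s M S (2 * Q) n (zE b l)) = true ∧ (expF b s M S (2 * Q) n (zE b l)).N = M ∧
      ∀ t, ‖V b (expF b s M S (2 * Q) n (zE b l)) t - S * ee (-(Dt Q l t))‖ ≤ ((21 * R + τ : ℕ) : ℝ) := by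
  have hb : ∀ (x y : Bool), (bif x then y else false) = true ↔ x = true ∧ y = true := by
    intro x y; cases x <;> simp
  unfold okX at h
  rw [hb, hb, hb, hb] at h
  obtain ⟨h1, h2, h3, h4, h5⟩ := h
  have hQ : 0 < Q := Nat.le_of_ble_eq_true h1
  obtain ⟨z1, z2⟩ := zD_sound b Q hQ l h2
  obtain ⟨m1, m2⟩ := mulI_sound b r hr _ z1 h3
  obtain ⟨n1, n2⟩ := negF_sound b r hr _ m1 h4
  obtain ⟨e1, e2, e3⟩ := expF_sound b r s M S (Nat.mul 2 Q) R n τ (zE b l) h5
  refine ⟨e1, e2, fun t => ?_⟩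
  have h6 := e3 t
  have hV : V b (zE b l) t / ((Nat.mul 2 Q : ℕ) : ℂ) = Complex.I * ((-(Dt Q l t) : ℝ) : ℂ) := by
    show V b (negF b (mulI b (zD b l))) t / _ = _
    rw [n2, m2, z2]
    have hQc : (Q : ℂ) ≠ 0 := by exact_mod_cast hQ.ne'
    have : ((Nat.mul 2 Q : ℕ) : ℂ) = 2 * Q := by
      show ((2 * Q : ℕ) : ℂ) = _
      push_cast
      rfl
    rw [this]
    push_cast
    field_simp
  rw [hV] at h6
  have hee : ee (-(Dt Q l t)) = Complex.exp (Complex.I * ((-(Dt Q l t) : ℝ) : ℂ)) := by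
    unfold ee
    congr 1
    first | rfl | ring
  rw [hee]
  exact h6

end Helper76.RC.TrD
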