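import Pool.Agent.Helper31.RC.Bes2

/-!
# Global bounds for the Bessel function of order zero

`J₀² + J₁²` is antitone on `(0, ∞)`; hence `|J₀(y)| ≤ 1/2` for `y ≥ 31/20` and
`-41/100 ≤ J₀(y)` for all `y ≥ 0`, `|J₀(y)| ≤ 41/100` for `y ≥ 9/5`.
-/

open Helper31.Bes

namespace Helper76.RC

theorem J_neg_one (y : ℝ) : J (-1) y = -J 1 y := by
  have h := J_neg_ord 1 y
  simpa using h

theorem hasDerivAt_J0 (y : ℝ) : HasDerivAt (fun y : ℝ => J 0 y) (-J 1 y) y := by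
  have h := hasDerivAt_J 0 y
  refine h.congr_deriv ?_
  have h1 : (0 : ℤ) - 1 = -1 := by norm_num
  have h2 : (0 : ℤ) + 1 = 1 := by norm_num
  rw [h1, h2, J_neg_one]
  ring

theorem hasDerivAt_J1 (y : ℝ) (hy : y ≠ 0) :
    HasDerivAt (fun y : ℝ => J 1 y) (J 0 y - J 1 y / y) y := by
  have h := hasDerivAt_J 1 y
  refine h.congr_deriv ?_
  have h1 : (1 : ℤ) - 1 = 0 := by norm_num
  have h2 : (1 : ℤ) + 1 = 2 := by norm_num
  have hr := J_rec 1 y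
  rw [h1, h2] at hr ⊢
  have h3 : J 2 y = 2 * J 1 y / y - J 0 y := by
    field_simp
    push_cast at hr
    linarith
  rw [h3]
  ring

theorem antitone_J0J1 : AntitoneOn (fun y : ℝ => J 0 y ^ 2 + J 1 y ^ 2) (Set.Ioi 0) := by
  apply antitoneOn_of_deriv_nonpos (convex_Ioi 0)
  · exact (((continuous_J 0).pow 2).add ((continuous_J 1).pow 2)).continuousOn
  · intro y hy
    rw [interior_Ioi] at hy
    have hy' : (0 : ℝ) < y := hy
    exact (((hasDerivAt_J0 y).pow 2).add ((hasDerivAt_J1 y hy'.ne').pow 2)).differentiableAt.differentiableWithinAt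
  · intro y hy
    rw [interior_Ioi] at hy
    have hy' : (0 : ℝ) < y := hy
    have h := (((hasDerivAt_J0 y).pow 2).add ((hasDerivAt_J1 y hy'.ne').pow 2)).deriv
    have h2 : (fun y : ℝ => J 0 y ^ 2 + J 1 y ^ 2) = (fun y : ℝ => J 0 y) ^ 2 + (fun y : ℝ => J 1 y) ^ 2 := by
      funext y
      simp
    rw [h2, h]
    have h3 : (↑(2 : ℕ) * J 0 y ^ (2 - 1) * -J 1 y + ↑(2 : ℕ) * J 1 y ^ (2 - 1) * (J 0 y - J 1 y / y) : ℝ)
        = -(2 * J 1 y ^ 2 / y) := by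
      field_simp
      push_cast
      ring
    rw [h3]
    have : 0 ≤ 2 * J 1 y ^ 2 / y := by positivity
    linarith

/-- `J₀(y)² ≤ J₀(y₀)² + J₁(y₀)²` for `y ≥ y₀ > 0` -/
theorem J0_sq_le (y0 y : ℝ) (h0 : 0 < y0) (h : y0 ≤ y) : J 0 y ^ 2 ≤ J 0 y0 ^ 2 + J 1 y0 ^ 2 := by
  have := antitone_J0J1 (show y0 ∈ Set.Ioi (0 : ℝ) from h0)
    (show y ∈ Set.Ioi (0 : ℝ) from lt_of_lt_of_le h0 h) h
  simp only at this
  nlinarith [sq_nonneg (J 1 y)]

theorem J0_bd4 (y : ℝ) (hy : 0 ≤ y) :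
    1 - y ^ 2 / 4 + y ^ 4 / 64 - y ^ 6 / 2304 ≤ J 0 y := by
  have := S_le_J 0 4 (by decide) (by norm_num) y hy
  simp [S, Finset.sum_range_succ, Nat.factorial] at this
  nlinarith

theorem J0_bd5 (y : ℝ) (hy : 0 ≤ y) :
    J 0 y ≤ 1 - y ^ 2 / 4 + y ^ 4 / 64 - y ^ 6 / 2304 + y ^ 8 / 147456 := by
  have := J_le_S 0 5 (by decide) y hy
  simp [S, Finset.sum_range_succ, Nat.factorial] at this
  nlinarith

theorem J0_bd6 (y : ℝ) (hy : 0 ≤ y) :
    1 - y ^ 2 / 4 + y ^ 4 / 64 - y ^ 6 / 2304 + y ^ 8 / 147456 - y ^ 10 / 14745600 ≤ J 0 y := by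
  have := S_le_J 0 6 (by decide) (by norm_num) y hy
  simp [S, Finset.sum_range_succ, Nat.factorial] at this
  nlinarith

theorem J0_bd7 (y : ℝ) (hy : 0 ≤ y) :
    J 0 y ≤ 1 - y ^ 2 / 4 + y ^ 4 / 64 - y ^ 6 / 2304 + y ^ 8 / 147456 - y ^ 10 / 14745600
      + y ^ 12 / 2123366400 := by
  have := J_le_S 0 7 (by decide) y hy
  simp [S, Finset.sum_range_succ, Nat.factorial] at this
  nlinarith

theorem J1_bd4 (y : ℝ) (hy : 0 ≤ y) :
    y / 2 - y ^ 3 / 16 + y ^ 5 / 384 - y ^ 7 / 18432 ≤ J 1 y := by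
  have := S_le_J 1 4 (by decide) (by norm_num) y hy
  simp [S, Finset.sum_range_succ, Nat.factorial] at this
  nlinarith

theorem J1_bd5 (y : ℝ) (hy : 0 ≤ y) :
    J 1 y ≤ y / 2 - y ^ 3 / 16 + y ^ 5 / 384 - y ^ 7 / 18432 + y ^ 9 / 1474560 := by
  have := J_le_S 1 5 (by decide) y hy
  simp [S, Finset.sum_range_succ, Nat.factorial] at this
  nlinarith

theorem J1_bd7 (y : ℝ) (hy : 0 ≤ y) :
    J 1 y ≤ y / 2 - y ^ 3 / 16 + y ^ 5 / 384 - y ^ 7 / 18432 + y ^ 9 / 1474560 - y ^ 11 / 176947200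
      + y ^ 13 / 29727129600 := by
  have := J_le_S 1 7 (by decide) y hy
  simp [S, Finset.sum_range_succ, Nat.factorial] at this
  nlinarith

/-- values at `13/5` -/
theorem at26 : J 0 (13 / 5) ^ 2 + J 1 (13 / 5) ^ 2 ≤ 1 / 4 := by
  have h1 := J0_bd6 (13 / 5) (by norm_num)
  have h2 := J0_bd5 (13 / 5) (by norm_num)
  have h3 := J1_bd4 (13 / 5) (by norm_num)
  have h4 := J1_bd5 (13 / 5) (by norm_num)
  norm_num at h1 h2 h3 h4
  have e1 : J 0 (13 / 5) ^ 2 ≤ (1 / 10) ^ 2 := by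
    apply sq_le_sq' <;> linarith
  have e2 : J 1 (13 / 5) ^ 2 ≤ (48 / 100) ^ 2 := by
    apply sq_le_sq' <;> linarith
  linarith

/-- values at `33/10` -/
theorem at33 : J 0 (33 / 10) ^ 2 + J 1 (33 / 10) ^ 2 ≤ (41 / 100) ^ 2 := by
  have h1 := J0_bd6 (33 / 10) (by norm_num)
  have h2 := J0_bd7 (33 / 10) (by norm_num)
  have h3 := J1_bd4 (33 / 10) (by norm_num)
  have h4 := J1_bd7 (33 / 10) (by norm_num)
  norm_num at h1 h2 h3 h4
  have e1 : J 0 (33 / 10) ^ 2 ≤ (3452 / 10000) ^ 2 := by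
    apply sq_le_sq' <;> linarith
  have e2 : J 1 (33 / 10) ^ 2 ≤ (2209 / 10000) ^ 2 := by
    apply sq_le_sq' <;> linarith
  linarith

theorem abs_J0_le_half (y : ℝ) (hy : 31 / 20 ≤ y) : |J 0 y| ≤ 1 / 2 := by
  rcases le_total (13 / 5) y with h | h
  · have h1 := J0_sq_le (13 / 5) y (by norm_num) h
    have h2 := at26
    apply abs_le_of_sq_le_sq _ (by norm_num)
    linarith
  · have hb := J0_bd y (by linarith)
    have h4 := J0_bd4 y (by linarith)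
    rw [abs_le]
    constructor
    · have : 1 - y ^ 2 / 4 + y ^ 4 / 64 - y ^ 6 / 2304 ≥ -(1 / 2) := by
        obtain ⟨t, ht⟩ : ∃ t, t = y ^ 2 := ⟨_, rfl⟩
        have ht1 : t ≤ 676 / 100 := by rw [ht]; nlinarith
        have ht0 : 0 ≤ t := by rw [ht]; positivity
        have e : 1 - y ^ 2 / 4 + y ^ 4 / 64 - y ^ 6 / 2304 = 1 - t / 4 + t ^ 2 / 64 - t ^ 3 / 2304 := by
          rw [ht]; ring
        rw [e]
        nlinarith [mul_nonneg ht0 ht0, mul_nonneg (mul_nonneg ht0 ht0) (sub_nonneg.2 ht1)]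
      linarith
    · have : 1 - y ^ 2 / 4 + y ^ 4 / 64 ≤ 1 / 2 := by
        obtain ⟨t, ht⟩ : ∃ t, t = y ^ 2 := ⟨_, rfl⟩
        have ht1 : t ≤ 676 / 100 := by rw [ht]; nlinarith
        have ht0 : 961 / 400 ≤ t := by rw [ht]; nlinarith
        have e : 1 - y ^ 2 / 4 + y ^ 4 / 64 = 1 - t / 4 + t ^ 2 / 64 := by
          rw [ht]; ring
        rw [e]
        nlinarith [mul_nonneg (sub_nonneg.2 ht1) (sub_nonneg.2 ht0)]
      linarith

theorem J0_ge (y : ℝ) (hy : 0 ≤ y) : -(41 / 100) ≤ J 0 y := by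
  rcases le_total (33 / 10) y with h | h
  · have h1 := J0_sq_le (33 / 10) y (by norm_num) h
    have h2 := at33
    have h3 : |J 0 y| ≤ 41 / 100 := by
      apply abs_le_of_sq_le_sq _ (by norm_num)
      linarith
    exact (abs_le.1 h3).1
  · have h6 := J0_bd6 y hy
    have : -(41 / 100) ≤ 1 - y ^ 2 / 4 + y ^ 4 / 64 - y ^ 6 / 2304 + y ^ 8 / 147456 - y ^ 10 / 14745600 := by
      obtain ⟨t, ht⟩ : ∃ t, t = y ^ 2 / 4 := ⟨_, rfl⟩
      have ht1 : t ≤ 27225 / 10000 := by rw [ht]; nlinarith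
      have ht0 : 0 ≤ t := by rw [ht]; positivity
      have e : 1 - y ^ 2 / 4 + y ^ 4 / 64 - y ^ 6 / 2304 + y ^ 8 / 147456 - y ^ 10 / 14745600
          = 1 - t + t ^ 2 / 4 - t ^ 3 / 36 + t ^ 4 / 576 - t ^ 5 / 14400 := by
        rw [ht]; ring
      rw [e]
      obtain ⟨s, hs⟩ : ∃ s, s = 27225 / 10000 - t := ⟨_, rfl⟩
      have hs0 : 0 ≤ s := by linarith
      have hs1 : s ≤ 27225 / 10000 := by linarith
      have e2 : t = 27225 / 10000 - s := by linarith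
      rw [e2]
      nlinarith [mul_nonneg hs0 hs0, mul_nonneg (mul_nonneg hs0 hs0) hs0, mul_nonneg (mul_nonneg hs0 hs0) (sub_nonneg.2 hs1),
        mul_nonneg (mul_nonneg (mul_nonneg hs0 hs0) hs0) (sub_nonneg.2 hs1),
        mul_nonneg (mul_nonneg (mul_nonneg (mul_nonneg hs0 hs0) hs0) hs0) (sub_nonneg.2 hs1)]
    linarith

theorem abs_J0_le (y : ℝ) (hy : 9 / 5 ≤ y) : |J 0 y| ≤ 41 / 100 := by
  rcases le_total (33 / 10) y with h | h
  · have h1 := J0_sq_le (33 / 10) y (by norm_num) h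
    have h2 := at33
    apply abs_le_of_sq_le_sq _ (by norm_num)
    linarith
  · rw [abs_le]
    refine ⟨J0_ge y (by linarith), ?_⟩
    have hb := (J0_bd y (by linarith)).2
    have : 1 - y ^ 2 / 4 + y ^ 4 / 64 ≤ 41 / 100 := by
      obtain ⟨t, ht⟩ : ∃ t, t = y ^ 2 := ⟨_, rfl⟩
      have ht1 : t ≤ 1089 / 100 := by rw [ht]; nlinarith
      have ht0 : 81 / 25 ≤ t := by rw [ht]; nlinarith
      have e : 1 - y ^ 2 / 4 + y ^ 4 / 64 = 1 - t / 4 + t ^ 2 / 64 := by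
        rw [ht]; ring
      rw [e]
      nlinarith [mul_nonneg (sub_nonneg.2 ht1) (sub_nonneg.2 ht0)]
    linarith

end Helper76.RC
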