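import Mathlib

/-!
# Kernel checkable lower bounds of quadratic forms (rounded Cholesky factors)

`chk ε Ls As Ls = true`: the integer matrix with the lower triangular rows `As` is, entry by entry, within
`ε` of `L Lᵀ`, where `L` has the rows `Ls`. If the real symmetric matrix `S M` is within `e` of `As`, then
`∑ M i j x i x j ≥ -((ε + e) n / S) ∑ x i ^ 2`.
-/

namespace Helper76.RC.Chol

open Finset

/-- dot product (up to the shorter length) -/
def dot : List ℤ → List ℤ → ℤ
  | a :: l, b :: m => a * b + dot l m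
  | _, _ => 0

/-- the entries of the row `as` are within `ε` of the dot products of `li` with the rows `ls` -/
def rowOK (ε : ℕ) (li : List ℤ) : List ℤ → List (List ℤ) → Bool
  | a :: as, l :: ls => Nat.ble (a - dot li l).natAbs ε && rowOK ε li as ls
  | [], _ => true
  | _ :: _, [] => false

/-- all rows; row `i` of the matrix must have exactly `i + 1` entries -/
def chk (ε : ℕ) (Ls : List (List ℤ)) : ℕ → List (List ℤ) → List (List ℤ) → Bool
  | i, a :: As, l :: Ls' => Nat.beq a.length (i + 1) && (rowOK ε l a Ls && chk ε Ls (i + 1) As Ls')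
  | _, [], [] => true
  | _, _, _ => false

/-- decoding of a row: digits in base `B`, offset `o` -/
def decR (B o : ℕ) : ℕ → ℕ → List ℤ
  | 0, _ => []
  | n + 1, x => (((x % B : ℕ) : ℤ) - (o : ℤ)) :: decR B o n (x / B)

/-- decoding of a lower triangular matrix: one number for each row -/
def decT (B o : ℕ) : ℕ → List ℕ → List (List ℤ)
  | _, [] => []
  | i, x :: l => decR B o (i + 1) x :: decT B o (i + 1) l

theorem dot_comm (l m : List ℤ) : dot l m = dot m l := by
  induction l generalizing m with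
  | nil => cases m <;> simp [dot]
  | cons a l ih =>
    cases m with
    | nil => simp [dot]
    | cons b m => simp [dot, ih m, mul_comm]

theorem dot_eq (l m : List ℤ) (N : ℕ) (h : l.length ≤ N) :
    dot l m = ∑ k ∈ range N, l.getD k 0 * m.getD k 0 := by
  induction l generalizing m N with
  | nil => simp [dot]
  | cons a l ih =>
    cases m with
    | nil => simp [dot]
    | cons b m =>
      obtain ⟨N', rfl⟩ : ∃ N', N = N' + 1 := ⟨N - 1, by simp at h; omega⟩
      rw [sum_range_succ']
      simp only [List.getD_cons_succ, List.getD_cons_zero, dot]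
      rw [ih m N' (by simpa using h)]
      ring

theorem rowOK_sound (ε : ℕ) (li : List ℤ) (as : List ℤ) (ls : List (List ℤ))
    (h : rowOK ε li as ls = true) (j : ℕ) (hj : j < as.length) :
    |as.getD j 0 - dot li (ls.getD j [])| ≤ ε := by
  induction as generalizing ls j with
  | nil => simp at hj
  | cons a as ih =>
    cases ls with
    | nil => simp [rowOK] at h
    | cons l ls =>
      simp only [rowOK, Bool.and_eq_true] at h
      cases j with
      | zero =>
        have h1 := Nat.le_of_ble_eq_true h.1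
        simp only [List.getD_cons_zero]
        rw [Int.abs_eq_natAbs]
        exact_mod_cast h1
      | succ j =>
        simp only [List.getD_cons_succ]
        exact ih ls h.2 j (by simpa using hj)

theorem chk_sound (ε : ℕ) (Ls : List (List ℤ)) (i0 : ℕ) (As Ls' : List (List ℤ))
    (h : chk ε Ls i0 As Ls' = true) :
    As.length = Ls'.length ∧ ∀ i < As.length, (As.getD i []).length = i0 + i + 1 ∧
      ∀ j < i0 + i + 1, |(As.getD i []).getD j 0 - dot (Ls'.getD i []) (Ls.getD j [])| ≤ ε := by
  induction As generalizing i0 Ls' with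
  | nil =>
    cases Ls' with
    | nil => simp
    | cons l Ls' => simp [chk] at h
  | cons a As ih =>
    cases Ls' with
    | nil => simp [chk] at h
    | cons l Ls' =>
      simp only [chk, Bool.and_eq_true] at h
      obtain ⟨h1, h2, h3⟩ := h
      have h1' : a.length = i0 + 1 := Nat.eq_of_beq_eq_true h1
      obtain ⟨h4, h5⟩ := ih (i0 + 1) Ls' h3
      refine ⟨by simp [h4], ?_⟩
      intro i hi
      cases i with
      | zero =>
        simp only [List.getD_cons_zero]
        refine ⟨by omega, ?_⟩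
        intro j hj
        exact rowOK_sound ε l a Ls h2 j (by omega)
      | succ i =>
        simp only [List.getD_cons_succ]
        obtain ⟨h6, h7⟩ := h5 i (by simpa using hi)
        refine ⟨by omega, ?_⟩
        intro j hj
        exact h7 j (by omega)

/-- the lower bound from an approximate factorisation -/
theorem quad_ge_of_approx (n N : ℕ) (M : ℕ → ℕ → ℝ) (L : ℕ → ℕ → ℝ) (S δ : ℝ) (hS : 0 < S)
    (h : ∀ i < n, ∀ j < n, |S * M i j - ∑ k ∈ range N, L i k * L j k| ≤ δ) (x : ℕ → ℝ) :
    -(δ * n / S) * ∑ i ∈ range n, x i ^ 2 ≤ ∑ i ∈ range n, ∑ j ∈ range n, M i j * (x i * x j) := by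
  have h1 : ∑ i ∈ range n, ∑ j ∈ range n, (∑ k ∈ range N, L i k * L j k) * (x i * x j)
      = ∑ k ∈ range N, (∑ i ∈ range n, L i k * x i) ^ 2 := by
    have e1 : ∀ k, (∑ i ∈ range n, L i k * x i) ^ 2
        = ∑ i ∈ range n, ∑ j ∈ range n, (L i k * L j k) * (x i * x j) := by
      intro k
      rw [sq, sum_mul_sum]
      refine sum_congr rfl fun i _ => sum_congr rfl fun j _ => ?_
      ring
    simp_rw [e1, sum_mul]
    rw [sum_comm]
    have e2 : ∑ k ∈ range N, ∑ i ∈ range n, ∑ j ∈ range n, L i k * L j k * (x i * x j)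
        = ∑ i ∈ range n, ∑ k ∈ range N, ∑ j ∈ range n, L i k * L j k * (x i * x j) := sum_comm
    rw [e2, sum_comm]
    refine sum_congr rfl fun i _ => ?_
    rw [sum_comm]
  have h2 : 0 ≤ ∑ i ∈ range n, ∑ j ∈ range n, (∑ k ∈ range N, L i k * L j k) * (x i * x j) := by
    rw [h1]
    exact sum_nonneg fun k _ => sq_nonneg _
  have h3 : S * ∑ i ∈ range n, ∑ j ∈ range n, M i j * (x i * x j)
      = ∑ i ∈ range n, ∑ j ∈ range n, (S * M i j - ∑ k ∈ range N, L i k * L j k) * (x i * x j)
        + ∑ i ∈ range n, ∑ j ∈ range n, (∑ k ∈ range N, L i k * L j k) * (x i * x j) := by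
    rw [← sum_add_distrib, mul_sum]
    refine sum_congr rfl fun i _ => ?_
    rw [← sum_add_distrib, mul_sum]
    refine sum_congr rfl fun j _ => ?_
    ring
  have h4 : -(δ * (n * ∑ i ∈ range n, x i ^ 2))
      ≤ ∑ i ∈ range n, ∑ j ∈ range n, (S * M i j - ∑ k ∈ range N, L i k * L j k) * (x i * x j) := by
    have h5 : -(δ * (∑ i ∈ range n, |x i|) ^ 2)
        ≤ ∑ i ∈ range n, ∑ j ∈ range n, (S * M i j - ∑ k ∈ range N, L i k * L j k) * (x i * x j) := by
      rw [sq, sum_mul_sum, mul_sum, ← sum_neg_distrib]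
      refine sum_le_sum fun i hi => ?_
      rw [mul_sum, ← sum_neg_distrib]
      refine sum_le_sum fun j hj => ?_
      have h6 := h i (mem_range.1 hi) j (mem_range.1 hj)
      have h7 : |(S * M i j - ∑ k ∈ range N, L i k * L j k) * (x i * x j)| ≤ δ * (|x i| * |x j|) := by
        rw [abs_mul, abs_mul]
        exact mul_le_mul_of_nonneg_right h6 (by positivity)
      have := (abs_le.1 h7).1
      linarith
    have h8 : (∑ i ∈ range n, |x i|) ^ 2 ≤ n * ∑ i ∈ range n, x i ^ 2 := by
      have := sq_sum_le_card_mul_sum_sq (s := range n) (f := fun i => |x i|)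
      simpa using this
    by_cases hn : n = 0
    · subst hn
      simp
    · have hδ : 0 ≤ δ := (abs_nonneg _).trans (h 0 (Nat.pos_of_ne_zero hn) 0 (Nat.pos_of_ne_zero hn))
      have := mul_le_mul_of_nonneg_left h8 hδ
      linarith
  have h9 : -(δ * (n * ∑ i ∈ range n, x i ^ 2)) ≤ S * ∑ i ∈ range n, ∑ j ∈ range n, M i j * (x i * x j) := by
    rw [h3]
    linarith
  have h10 : -(δ * n / S) * ∑ i ∈ range n, x i ^ 2 = (-(δ * (n * ∑ i ∈ range n, x i ^ 2))) / S := by
    field_simp
  rw [h10, div_le_iff₀ hS]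
  linarith [mul_comm S (∑ i ∈ range n, ∑ j ∈ range n, M i j * (x i * x j))]

/-- THE CERTIFICATE. `As` (lower triangular rows) approximates `S M` up to `e`, `Ls` is a rounded Cholesky
factor of `As`. -/
theorem quad_ge (ε : ℕ) (Ls As : List (List ℤ)) (hc : chk ε Ls 0 As Ls = true)
    (M : ℕ → ℕ → ℝ) (hs : ∀ i j, M i j = M j i) (S e : ℝ) (hS : 0 < S)
    (hM : ∀ i < As.length, ∀ j ≤ i, |S * M i j - (((As.getD i []).getD j 0 : ℤ) : ℝ)| ≤ e)
    (x : ℕ → ℝ) :
    -((ε + e) * As.length / S) * ∑ i ∈ range As.length, x i ^ 2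
      ≤ ∑ i ∈ range As.length, ∑ j ∈ range As.length, M i j * (x i * x j) := by
  obtain ⟨h1, h2⟩ := chk_sound ε Ls 0 As Ls hc
  set N : ℕ := Ls.foldr (fun l m => max l.length m) 0 with hN
  have hlen : ∀ l ∈ Ls, l.length ≤ N := by
    rw [hN]
    clear hN h1 h2 hc hM
    clear N
    induction Ls with
    | nil => simp
    | cons l Ls ih =>
      intro l' hl'
      simp only [List.foldr_cons]
      rcases List.mem_cons.1 hl' with rfl | h
      · exact le_max_left _ _
      · exact (ih l' h).trans (le_max_right _ _)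
  have hlen' : ∀ i, (Ls.getD i []).length ≤ N := by
    intro i
    by_cases hi : i < Ls.length
    · rw [List.getD_eq_getElem _ _ hi]
      exact hlen _ (List.getElem_mem hi)
    · rw [List.getD_eq_default _ _ (by omega)]
      simp
  have key : ∀ i < As.length, ∀ j ≤ i,
      |S * M i j - ∑ k ∈ range N, (((Ls.getD i []).getD k 0 : ℤ) : ℝ) * (((Ls.getD j []).getD k 0 : ℤ) : ℝ)|
        ≤ ε + e := by
    intro i hi j hj
    have h3 := (h2 i hi).2 j (by omega)
    rw [dot_eq _ _ N (hlen' i)] at h3
    have h4 : |(((As.getD i []).getD j 0 : ℤ) : ℝ)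
        - ∑ k ∈ range N, (((Ls.getD i []).getD k 0 : ℤ) : ℝ) * (((Ls.getD j []).getD k 0 : ℤ) : ℝ)| ≤ ε := by
      have := (Int.cast_le (R := ℝ)).2 h3
      push_cast at this
      exact_mod_cast this
    have h5 := hM i hi j hj
    have e1 : S * M i j - ∑ k ∈ range N, (((Ls.getD i []).getD k 0 : ℤ) : ℝ) * (((Ls.getD j []).getD k 0 : ℤ) : ℝ)
        = (S * M i j - (((As.getD i []).getD j 0 : ℤ) : ℝ)) + ((((As.getD i []).getD j 0 : ℤ) : ℝ)
        - ∑ k ∈ range N, (((Ls.getD i []).getD k 0 : ℤ) : ℝ) * (((Ls.getD j []).getD k 0 : ℤ) : ℝ)) := by ring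
    rw [e1]
    refine (abs_add_le _ _).trans ?_
    linarith
  refine quad_ge_of_approx As.length N M (fun i k => (((Ls.getD i []).getD k 0 : ℤ) : ℝ)) S (ε + e) hS ?_ x
  intro i hi j hj
  rcases le_total j i with hji | hij
  · exact key i hi j hji
  · have := key j hj i hij
    rw [hs j i] at this
    rw [show ∑ k ∈ range N, (((Ls.getD i []).getD k 0 : ℤ) : ℝ) * (((Ls.getD j []).getD k 0 : ℤ) : ℝ)
      = ∑ k ∈ range N, (((Ls.getD j []).getD k 0 : ℤ) : ℝ) * (((Ls.getD i []).getD k 0 : ℤ) : ℝ) from
        sum_congr rfl fun k _ => mul_comm _ _]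
    exact this

end Helper76.RC.Chol
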