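import Pool.Agent.Helper76.RC.BesGlobal

/-!
# Link (7), diagonal part: bounds for `(2/n)(1 - cos(n(π/3 - d)) J₀(n k))`

`AdmKD k d`: the admissible amplitudes `k` and lags `d` of the shift `ψ = -d + k sin(3θ+..)`.
`vn n k d = (2/n)(1 - cos(n(π/3 - d)) J₀(n k))`; the diagonal entry of `[N]_ψ` at the even mode
`m = n > 0` is `vn n k d`, at `m = -n` it is `-vn n k d`.

* `vn_le`       : `vn n ≤ 3/n` for all even `n ≥ 8` (uniform in `k, d`);
* `vn_le_zero`  : `vn n ≤ (141/50)/n` for `6 ∣ n`, `n ≥ 12`;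
* `vn_six_le`   : `vn 6 ≤ (1/3)(1 - (1 - 18 d²)(1 - 9 k²))` for `k ≤ 1/3`;
* lower bounds for the partners `m > 0`.
-/

open Helper31.Bes

namespace Helper76.RC

noncomputable def vn (n : ℕ) (k d : ℝ) : ℝ :=
  (2 / (n : ℝ)) * (1 - Real.cos ((n : ℝ) * (Real.pi / 3 - d)) * J 0 ((n : ℝ) * k))

/-- admissible pairs (amplitude, lag): `d ≤ .22`, and `d ≤ .9 k²` while `k < 1/5` -/
structure AdmKD (k d : ℝ) : Prop where
  hk : 0 ≤ k
  hd : 0 ≤ d
  hd' : d ≤ 11 / 50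
  hq : k < 1 / 5 → d ≤ 9 / 10 * k ^ 2

theorem cos_two_mod (j : ℕ) (x : ℝ) :
    Real.cos (((6 * j + 2 : ℕ) : ℝ) * (Real.pi / 3) - x) = Real.cos (2 * Real.pi / 3 - x) := by
  have : ((6 * j + 2 : ℕ) : ℝ) * (Real.pi / 3) - x = (2 * Real.pi / 3 - x) + (j : ℕ) * (2 * Real.pi) := by
    push_cast; ring
  rw [this, Real.cos_add_nat_mul_two_pi]

theorem cos_four_mod (j : ℕ) (x : ℝ) :
    Real.cos (((6 * j + 4 : ℕ) : ℝ) * (Real.pi / 3) - x) = -Real.cos (Real.pi / 3 - x) := by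
  have : ((6 * j + 4 : ℕ) : ℝ) * (Real.pi / 3) - x = ((Real.pi / 3 - x) + Real.pi) + (j : ℕ) * (2 * Real.pi) := by
    push_cast; ring
  rw [this, Real.cos_add_nat_mul_two_pi, Real.cos_add_pi]

theorem cos_zero_mod (j : ℕ) (x : ℝ) :
    Real.cos (((6 * j : ℕ) : ℝ) * (Real.pi / 3) - x) = Real.cos x := by
  have : ((6 * j : ℕ) : ℝ) * (Real.pi / 3) - x = (-x) + (j : ℕ) * (2 * Real.pi) := by
    push_cast; ring
  rw [this, Real.cos_add_nat_mul_two_pi, Real.cos_neg]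

theorem J0_nonneg (y : ℝ) (h0 : 0 ≤ y) (h2 : y ≤ 2) : 0 ≤ J 0 y := by
  have := (J0_bd y h0).1
  nlinarith

theorem J0_le_one (y : ℝ) : J 0 y ≤ 1 := (abs_le.1 (abs_J_le_one 0 y)).2

theorem prod_ge_of_abs (c J b : ℝ) (hc : |c| ≤ 1) (hJ : |J| ≤ b) : -b ≤ c * J ∧ c * J ≤ b := by
  have h : |c * J| ≤ b := by
    rw [abs_mul]
    calc |c| * |J| ≤ 1 * b := mul_le_mul hc hJ (abs_nonneg _) (by norm_num)
      _ = b := one_mul b
  exact ⟨(abs_le.1 h).1, (abs_le.1 h).2⟩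

/-- for small `n k` the lag `n d` is small -/
theorem nd_le {k d : ℝ} (h : AdmKD k d) (n : ℕ) (hn : 8 ≤ n) (Y : ℝ) (hY : Y ≤ 8 / 5)
    (hy : (n : ℝ) * k < Y) : (n : ℝ) * d ≤ 9 / 10 * ((n : ℝ) * k) ^ 2 / n := by
  have hn' : (8 : ℝ) ≤ n := by exact_mod_cast hn
  have hk := h.hk
  have hk5 : k < 1 / 5 := by
    by_contra hc
    push Not at hc
    have : (8 : ℝ) * (1 / 5) ≤ n * k := mul_le_mul hn' hc (by norm_num) (by linarith)
    linarith
  have hd := h.hq hk5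
  have e : 9 / 10 * ((n : ℝ) * k) ^ 2 / n = n * (9 / 10 * k ^ 2) := by
    field_simp
  rw [e]
  exact mul_le_mul_of_nonneg_left hd (by linarith)

theorem nd_le12 {k d : ℝ} (h : AdmKD k d) (n : ℕ) (hn : 12 ≤ n)
    (hy : (n : ℝ) * k < 9 / 5) : (n : ℝ) * d ≤ 9 / 10 * ((n : ℝ) * k) ^ 2 / n := by
  have hn' : (12 : ℝ) ≤ n := by exact_mod_cast hn
  have hk := h.hk
  have hk5 : k < 1 / 5 := by
    by_contra hc
    push Not at hc
    have : (12 : ℝ) * (1 / 5) ≤ n * k := mul_le_mul hn' hc (by norm_num) (by linarith)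
    linarith
  have hd := h.hq hk5
  have e : 9 / 10 * ((n : ℝ) * k) ^ 2 / n = n * (9 / 10 * k ^ 2) := by
    field_simp
  rw [e]
  exact mul_le_mul_of_nonneg_left hd (by linarith)

theorem vn_le_of_prod (n : ℕ) (hn : 1 ≤ n) (k d b : ℝ)
    (h : -b ≤ Real.cos ((n : ℝ) * (Real.pi / 3 - d)) * J 0 ((n : ℝ) * k)) :
    vn n k d ≤ 2 * (1 + b) / n := by
  unfold vn
  have hn' : (0 : ℝ) < n := by exact_mod_cast hn
  rw [div_mul_eq_mul_div]
  apply div_le_div_of_nonneg_right _ hn'.le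
  linarith

theorem vn_ge_of_prod (n : ℕ) (hn : 1 ≤ n) (k d b : ℝ)
    (h : Real.cos ((n : ℝ) * (Real.pi / 3 - d)) * J 0 ((n : ℝ) * k) ≤ b) :
    2 * (1 - b) / n ≤ vn n k d := by
  unfold vn
  have hn' : (0 : ℝ) < n := by exact_mod_cast hn
  rw [div_mul_eq_mul_div]
  apply div_le_div_of_nonneg_right _ hn'.le
  linarith

theorem prod_two_mod {k d : ℝ} (h : AdmKD k d) (j : ℕ) (hj : 1 ≤ j) :
    -(1 / 2) ≤ Real.cos (((6 * j + 2 : ℕ) : ℝ) * (Real.pi / 3 - d)) * J 0 (((6 * j + 2 : ℕ) : ℝ) * k) := by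
  set n : ℕ := 6 * j + 2 with hn
  have hn8 : 8 ≤ n := by omega
  have hn' : (8 : ℝ) ≤ n := by exact_mod_cast hn8
  set y : ℝ := (n : ℝ) * k with hy
  have hy0 : 0 ≤ y := mul_nonneg (by linarith) h.hk
  rcases le_or_gt (31 / 20) y with h1 | h1
  · exact (prod_ge_of_abs _ _ _ (Real.abs_cos_le_one _) (abs_J0_le_half y h1)).1
  · have hnd := nd_le h n hn8 (31 / 20) (by norm_num) h1
    rw [← hy] at hnd
    have hnd0 : 0 ≤ (n : ℝ) * d := mul_nonneg (by linarith) h.hd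
    have hy2 : y ^ 2 ≤ 961 / 400 := by nlinarith
    have hnd1 : (n : ℝ) * d ≤ 3 / 10 := by
      refine hnd.trans ?_
      rw [div_le_iff₀ (by linarith)]
      nlinarith
    have hc : Real.cos ((n : ℝ) * (Real.pi / 3 - d)) = Real.cos (2 * Real.pi / 3 - n * d) := by
      rw [← cos_two_mod j ((n : ℝ) * d), ← hn]
      congr 1
      ring
    have hpi := Real.pi_gt_three
    have hc2 : -(1 / 2) ≤ Real.cos (2 * Real.pi / 3 - n * d) := by
      have h3 : Real.cos (2 * Real.pi / 3) = -(1 / 2) := by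
        have : 2 * Real.pi / 3 = Real.pi - Real.pi / 3 := by ring
        rw [this, Real.cos_pi_sub, Real.cos_pi_div_three]
      rw [← h3]
      apply Real.cos_le_cos_of_nonneg_of_le_pi
      · linarith
      · linarith
      · linarith
    have hJ0 := J0_nonneg y hy0 (by linarith)
    have hJ1 := J0_le_one y
    rw [hc]
    nlinarith

theorem prod_four_mod {k d : ℝ} (h : AdmKD k d) (j : ℕ) (hj : 1 ≤ j) :
    -(1 / 2) ≤ Real.cos (((6 * j + 4 : ℕ) : ℝ) * (Real.pi / 3 - d)) * J 0 (((6 * j + 4 : ℕ) : ℝ) * k) := by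
  set n : ℕ := 6 * j + 4 with hn
  have hn8 : 10 ≤ n := by omega
  have hn' : (10 : ℝ) ≤ n := by exact_mod_cast hn8
  set y : ℝ := (n : ℝ) * k with hy
  have hy0 : 0 ≤ y := mul_nonneg (by linarith) h.hk
  rcases le_or_gt (31 / 20) y with h1 | h1
  · exact (prod_ge_of_abs _ _ _ (Real.abs_cos_le_one _) (abs_J0_le_half y h1)).1
  · have hnd := nd_le h n (by omega) (31 / 20) (by norm_num) h1
    rw [← hy] at hnd
    have hnd0 : 0 ≤ (n : ℝ) * d := mul_nonneg (by linarith) h.hd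
    have hy2 : y ^ 2 ≤ 961 / 400 := by nlinarith
    have hnd1 : (n : ℝ) * d ≤ 9 / 100 * y ^ 2 := by
      refine hnd.trans ?_
      rw [div_le_iff₀ (by linarith)]
      nlinarith [sq_nonneg y]
    have hc : Real.cos ((n : ℝ) * (Real.pi / 3 - d)) = -Real.cos (Real.pi / 3 - n * d) := by
      rw [← cos_four_mod j ((n : ℝ) * d), ← hn]
      congr 1
      ring
    have hc2 : Real.cos (Real.pi / 3 - n * d) ≤ 1 / 2 + 867 / 1000 * (9 / 100 * y ^ 2) := by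
      rw [Real.cos_sub, Real.cos_pi_div_three, Real.sin_pi_div_three]
      have e1 := Real.cos_le_one ((n : ℝ) * d)
      have e2 := Real.sin_le hnd0
      have e3 : Real.sqrt 3 / 2 ≤ 867 / 1000 := by
        have : Real.sqrt 3 ≤ 1734 / 1000 := by
          rw [Real.sqrt_le_left (by norm_num)]
          norm_num
        linarith
      have e4 : 0 ≤ Real.sqrt 3 / 2 := by positivity
      have e5 : Real.sin ((n : ℝ) * d) ≤ 9 / 100 * y ^ 2 := e2.trans hnd1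
      have e6 : Real.sqrt 3 / 2 * Real.sin ((n : ℝ) * d) ≤ 867 / 1000 * (9 / 100 * y ^ 2) := by
        have e7 : 0 ≤ 9 / 100 * y ^ 2 := by positivity
        calc Real.sqrt 3 / 2 * Real.sin ((n : ℝ) * d) ≤ Real.sqrt 3 / 2 * (9 / 100 * y ^ 2) :=
              mul_le_mul_of_nonneg_left e5 e4
          _ ≤ 867 / 1000 * (9 / 100 * y ^ 2) := mul_le_mul_of_nonneg_right e3 e7
      linarith
    have hJ0 := J0_nonneg y hy0 (by linarith)
    have hJ1 := (J0_bd y hy0).2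
    rw [hc]
    have hA : 0 ≤ 1 / 2 + 867 / 1000 * (9 / 100 * y ^ 2) := by positivity
    have key : Real.cos (Real.pi / 3 - n * d) * J 0 y ≤
        (1 / 2 + 867 / 1000 * (9 / 100 * y ^ 2)) * (1 - y ^ 2 / 4 + y ^ 4 / 64) := by
      calc Real.cos (Real.pi / 3 - n * d) * J 0 y ≤ (1 / 2 + 867 / 1000 * (9 / 100 * y ^ 2)) * J 0 y :=
            mul_le_mul_of_nonneg_right hc2 hJ0
        _ ≤ _ := mul_le_mul_of_nonneg_left hJ1 hA
    have key2 : (1 / 2 + 867 / 1000 * (9 / 100 * y ^ 2)) * (1 - y ^ 2 / 4 + y ^ 4 / 64) ≤ 1 / 2 := by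
      obtain ⟨t, ht⟩ : ∃ t, t = y ^ 2 := ⟨_, rfl⟩
      have ht1 : t ≤ 961 / 400 := by rw [ht]; exact hy2
      have ht0 : 0 ≤ t := by rw [ht]; positivity
      have e : y ^ 4 = t ^ 2 := by rw [ht]; ring
      rw [e, ← ht]
      nlinarith [mul_nonneg ht0 ht0, mul_nonneg ht0 (sub_nonneg.2 ht1),
        mul_nonneg (mul_nonneg ht0 ht0) (sub_nonneg.2 ht1)]
    linarith

theorem prod_zero_mod {k d : ℝ} (h : AdmKD k d) (j : ℕ) (hj : 2 ≤ j) :
    -(41 / 100) ≤ Real.cos (((6 * j : ℕ) : ℝ) * (Real.pi / 3 - d)) * J 0 (((6 * j : ℕ) : ℝ) * k) := by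
  set n : ℕ := 6 * j with hn
  have hn8 : 12 ≤ n := by omega
  have hn' : (12 : ℝ) ≤ n := by exact_mod_cast hn8
  set y : ℝ := (n : ℝ) * k with hy
  have hy0 : 0 ≤ y := mul_nonneg (by linarith) h.hk
  rcases le_or_gt (9 / 5) y with h1 | h1
  · exact (prod_ge_of_abs _ _ _ (Real.abs_cos_le_one _) (abs_J0_le y h1)).1
  · have hnd := nd_le12 h n hn8 h1
    rw [← hy] at hnd
    have hnd0 : 0 ≤ (n : ℝ) * d := mul_nonneg (by linarith) h.hd
    have hy2 : y ^ 2 ≤ 81 / 25 := by nlinarith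
    have hnd1 : (n : ℝ) * d ≤ 1 := by
      refine hnd.trans ?_
      rw [div_le_iff₀ (by linarith)]
      nlinarith
    have hc : Real.cos ((n : ℝ) * (Real.pi / 3 - d)) = Real.cos (n * d) := by
      rw [← cos_zero_mod j ((n : ℝ) * d), ← hn]
      congr 1
      ring
    have hpi := Real.pi_gt_three
    have hc2 : 0 ≤ Real.cos (n * d) := Real.cos_nonneg_of_neg_pi_div_two_le_of_le (by linarith) (by linarith)
    have hJ0 := J0_nonneg y hy0 (by linarith)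
    rw [hc]
    have := mul_nonneg hc2 hJ0
    linarith

theorem vn_le_zero {k d : ℝ} (h : AdmKD k d) (j : ℕ) (hj : 2 ≤ j) :
    vn (6 * j) k d ≤ 282 / 100 / ((6 * j : ℕ) : ℝ) := by
  have := vn_le_of_prod (6 * j) (by omega) k d _ (prod_zero_mod h j hj)
  have e : (2 : ℝ) * (1 + 41 / 100) = 282 / 100 := by norm_num
  rwa [e] at this

/-- uniform upper bound `3/n` for all even `n ≥ 8` -/
theorem vn_le {k d : ℝ} (h : AdmKD k d) (n : ℕ) (hn : 8 ≤ n) (he : Even n) :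
    vn n k d ≤ 3 / n := by
  have h6 : n % 6 = 0 ∨ n % 6 = 2 ∨ n % 6 = 4 := by
    obtain ⟨r, hr⟩ := he
    omega
  have hn0 : (0 : ℝ) < n := by
    have : (8 : ℝ) ≤ n := by exact_mod_cast hn
    linarith
  rcases h6 with h6 | h6 | h6
  · obtain ⟨j, hj⟩ : ∃ j, n = 6 * j := ⟨n / 6, by omega⟩
    subst hj
    refine (vn_le_zero h j (by omega)).trans ?_
    apply div_le_div_of_nonneg_right (by norm_num) hn0.le
  · obtain ⟨j, hj⟩ : ∃ j, n = 6 * j + 2 := ⟨n / 6, by omega⟩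
    subst hj
    have := vn_le_of_prod (6 * j + 2) (by omega) k d _ (prod_two_mod h j (by omega))
    have e : (2 : ℝ) * (1 + 1 / 2) = 3 := by norm_num
    rwa [e] at this
  · obtain ⟨j, hj⟩ : ∃ j, n = 6 * j + 4 := ⟨n / 6, by omega⟩
    subst hj
    have := vn_le_of_prod (6 * j + 4) (by omega) k d _ (prod_four_mod h j (by omega))
    have e : (2 : ℝ) * (1 + 1 / 2) = 3 := by norm_num
    rwa [e] at this

/-- `n = 6`: `vn 6 ≤ (1/3)(1 - (1 - 18 d²)(1 - 9 k²))` -/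
theorem vn_six_le (k d : ℝ) (hk : 0 ≤ k) (hk3 : k ≤ 1 / 3) (hd : 0 ≤ d) (hd' : d ≤ 11 / 50) :
    vn 6 k d ≤ 1 / 3 * (1 - (1 - 18 * d ^ 2) * (1 - 9 * k ^ 2)) := by
  unfold vn
  have hc : Real.cos (((6 : ℕ) : ℝ) * (Real.pi / 3 - d)) = Real.cos (6 * d) := by
    have := cos_zero_mod 1 (6 * d)
    rw [← this]
    congr 1
    push_cast
    ring
  rw [hc]
  have h1 : 1 - (6 * d) ^ 2 / 2 ≤ Real.cos (6 * d) := Real.one_sub_sq_div_two_le_cos
  have h2 := (J0_bd (6 * k) (by linarith)).1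
  have h3 : (0 : ℝ) ≤ 1 - 18 * d ^ 2 := by nlinarith
  have h4 : (0 : ℝ) ≤ 1 - 9 * k ^ 2 := by nlinarith
  have h5 : (1 - 18 * d ^ 2) * (1 - 9 * k ^ 2) ≤ Real.cos (6 * d) * J 0 (6 * k) := by
    apply mul_le_mul
    · linarith
    · linarith
    · exact h4
    · linarith
  push_cast
  linarith

/-- crude: `vn 6 ≤ 1/3` -/
theorem vn_six_le_third (k d : ℝ) (hk : 0 ≤ k) (hk3 : k ≤ 1 / 3) (hd : 0 ≤ d) (hd' : d ≤ 11 / 50) :
    vn 6 k d ≤ 1 / 3 := by
  refine (vn_six_le k d hk hk3 hd hd').trans ?_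
  have h3 : (0 : ℝ) ≤ 1 - 18 * d ^ 2 := by nlinarith
  have h4 : (0 : ℝ) ≤ 1 - 9 * k ^ 2 := by nlinarith
  nlinarith [mul_nonneg h3 h4]

/-- all diagonal entries are nonnegative multiples of the sign of `m` -/
theorem vn_nonneg (n : ℕ) (hn : 1 ≤ n) (k d : ℝ) : 0 ≤ vn n k d := by
  have h := vn_ge_of_prod n hn k d 1 (prod_ge_of_abs _ _ _ (Real.abs_cos_le_one _) (abs_J_le_one 0 _)).2
  simpa using h

/-- upper bound `1/2` of the product for `n = 2, 4 mod 6`, `n ≥ 8` -/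
theorem prod_le_half {k d : ℝ} (h : AdmKD k d) (n : ℕ) (hn8 : 8 ≤ n) (hm : n % 6 = 2 ∨ n % 6 = 4) :
    Real.cos ((n : ℝ) * (Real.pi / 3 - d)) * J 0 ((n : ℝ) * k) ≤ 1 / 2 := by
  have hn' : (8 : ℝ) ≤ n := by exact_mod_cast hn8
  set y : ℝ := (n : ℝ) * k with hy
  have hy0 : 0 ≤ y := mul_nonneg (by linarith) h.hk
  rcases le_or_gt (31 / 20) y with h1 | h1
  · exact (prod_ge_of_abs _ _ _ (Real.abs_cos_le_one _) (abs_J0_le_half y h1)).2
  · have hJ0 := J0_nonneg y hy0 (by linarith)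
    have hnd := nd_le h n hn8 (31 / 20) (by norm_num) h1
    rw [← hy] at hnd
    have hnd0 : 0 ≤ (n : ℝ) * d := mul_nonneg (by linarith) h.hd
    have hy2 : y ^ 2 ≤ 961 / 400 := by nlinarith
    have hnd1 : (n : ℝ) * d ≤ 3 / 10 := by
      refine hnd.trans ?_
      rw [div_le_iff₀ (by linarith)]
      nlinarith
    have hpi := Real.pi_gt_three
    have hcos : Real.cos ((n : ℝ) * (Real.pi / 3 - d)) ≤ 0 := by
      rcases hm with hm | hm
      · obtain ⟨j, hj⟩ : ∃ j, n = 6 * j + 2 := ⟨n / 6, by omega⟩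
        have hc : Real.cos ((n : ℝ) * (Real.pi / 3 - d)) = Real.cos (2 * Real.pi / 3 - n * d) := by
          rw [← cos_two_mod j ((n : ℝ) * d), ← hj]
          congr 1
          ring
        rw [hc]
        exact Real.cos_nonpos_of_pi_div_two_le_of_le (by linarith) (by linarith)
      · obtain ⟨j, hj⟩ : ∃ j, n = 6 * j + 4 := ⟨n / 6, by omega⟩
        have hc : Real.cos ((n : ℝ) * (Real.pi / 3 - d)) = -Real.cos (Real.pi / 3 - n * d) := by
          rw [← cos_four_mod j ((n : ℝ) * d), ← hj]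
          congr 1
          ring
        rw [hc]
        have := Real.cos_nonneg_of_neg_pi_div_two_le_of_le
          (show -(Real.pi / 2) ≤ Real.pi / 3 - n * d by linarith)
          (show Real.pi / 3 - n * d ≤ Real.pi / 2 by linarith)
        linarith
    have := mul_nonneg (neg_nonneg.2 hcos) hJ0
    linarith

/-- lower bound for the partners, `m = 2, 4 mod 6`, `m ≥ 8` -/
theorem vn_ge {k d : ℝ} (h : AdmKD k d) (n : ℕ) (hn8 : 8 ≤ n) (hm : n % 6 = 2 ∨ n % 6 = 4) :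
    1 / (n : ℝ) ≤ vn n k d := by
  have := vn_ge_of_prod n (by omega) k d _ (prod_le_half h n hn8 hm)
  have e : (2 : ℝ) * (1 - 1 / 2) = 1 := by norm_num
  rwa [e] at this

/-- `m = 2`: `vn 2 ≥ 1 + (1/2 - 7/4 d - d²)(1 - k²)` -/
theorem vn_two_ge (k d : ℝ) (hk : 0 ≤ k) (hk3 : k ≤ 1 / 3) (hd : 0 ≤ d) (hd' : d ≤ 11 / 50) :
    1 + (1 / 2 - 7 / 4 * d - d ^ 2) * (1 - k ^ 2) ≤ vn 2 k d := by
  unfold vn
  have hc : Real.cos (((2 : ℕ) : ℝ) * (Real.pi / 3 - d)) = Real.cos (2 * Real.pi / 3 - 2 * d) := by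
    congr 1
    push_cast
    ring
  rw [hc]
  have h3 : 2 * Real.pi / 3 = Real.pi - Real.pi / 3 := by ring
  have e1 : Real.cos (2 * Real.pi / 3 - 2 * d)
      = -(1 / 2) * Real.cos (2 * d) + Real.sqrt 3 / 2 * Real.sin (2 * d) := by
    rw [Real.cos_sub, h3, Real.cos_pi_sub, Real.sin_pi_sub, Real.cos_pi_div_three,
      Real.sin_pi_div_three]
  have e2 : 1 - (2 * d) ^ 2 / 2 ≤ Real.cos (2 * d) := Real.one_sub_sq_div_two_le_cos
  have e3 : Real.sin (2 * d) ≤ 2 * d := Real.sin_le (by linarith)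
  have e4 : 0 ≤ Real.sin (2 * d) := Real.sin_nonneg_of_nonneg_of_le_pi (by linarith)
    (by linarith [Real.pi_gt_three])
  have e5 : Real.sqrt 3 ≤ 7 / 4 := by
    rw [Real.sqrt_le_left (by norm_num)]
    norm_num
  have e6 : Real.sqrt 3 / 2 * Real.sin (2 * d) ≤ 7 / 4 * d := by
    have := Real.sqrt_nonneg 3
    nlinarith
  have e7 : Real.cos (2 * Real.pi / 3 - 2 * d) ≤ -(1 / 2 - 7 / 4 * d - d ^ 2) := by
    rw [e1]
    nlinarith
  have h2 := (J0_bd (2 * k) (by linarith)).1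
  have hJ0 : 0 ≤ J 0 (2 * k) := J0_nonneg _ (by linarith) (by linarith)
  have h5 : 0 ≤ 1 / 2 - 7 / 4 * d - d ^ 2 := by nlinarith
  have h6 : Real.cos (2 * Real.pi / 3 - 2 * d) * J 0 (2 * k)
      ≤ -(1 / 2 - 7 / 4 * d - d ^ 2) * (1 - k ^ 2) := by
    have a1 : Real.cos (2 * Real.pi / 3 - 2 * d) * J 0 (2 * k)
        ≤ -(1 / 2 - 7 / 4 * d - d ^ 2) * J 0 (2 * k) := mul_le_mul_of_nonneg_right e7 hJ0
    have a2 : (1 / 2 - 7 / 4 * d - d ^ 2) * (1 - k ^ 2) ≤ (1 / 2 - 7 / 4 * d - d ^ 2) * J 0 (2 * k) := by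
      apply mul_le_mul_of_nonneg_left _ h5
      linarith
    linarith
  push_cast
  linarith

/-- `m = 4`: `vn 4 ≥ 3/4 - k²` -/
theorem vn_four_ge (k d : ℝ) (hk : 0 ≤ k) (hk3 : k ≤ 1 / 3) (hd : 0 ≤ d) (hd' : d ≤ 11 / 50) :
    3 / 4 - k ^ 2 ≤ vn 4 k d := by
  unfold vn
  have hc : Real.cos (((4 : ℕ) : ℝ) * (Real.pi / 3 - d)) = -Real.cos (Real.pi / 3 - 4 * d) := by
    have := cos_four_mod 0 (4 * d)
    rw [← this]
    congr 1
    push_cast
    ring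
  rw [hc]
  have hpi := Real.pi_gt_three
  have e2 : 1 / 2 ≤ Real.cos (Real.pi / 3 - 4 * d) := by
    rw [← Real.cos_pi_div_three]
    apply Real.cos_le_cos_of_nonneg_of_le_pi <;> linarith
  have h2 := (J0_bd (4 * k) (by linarith)).1
  have hJ0 : 0 ≤ J 0 (4 * k) := J0_nonneg _ (by linarith) (by linarith)
  push_cast
  nlinarith

/-- `m = -2`: `vn 2 ≤ 3/2 + ..`: the neutral mode, `vn 2 ≤ 3/2` -/
theorem vn_two_le (k d : ℝ) (hk : 0 ≤ k) (hk3 : k ≤ 1 / 3) (hd : 0 ≤ d) (hd' : d ≤ 11 / 50) :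
    vn 2 k d ≤ 3 / 2 := by
  unfold vn
  have hc : Real.cos (((2 : ℕ) : ℝ) * (Real.pi / 3 - d)) = Real.cos (2 * Real.pi / 3 - 2 * d) := by
    congr 1
    push_cast
    ring
  rw [hc]
  have hpi := Real.pi_gt_three
  have h3 : Real.cos (2 * Real.pi / 3) = -(1 / 2) := by
    have : 2 * Real.pi / 3 = Real.pi - Real.pi / 3 := by ring
    rw [this, Real.cos_pi_sub, Real.cos_pi_div_three]
  have hc2 : -(1 / 2) ≤ Real.cos (2 * Real.pi / 3 - 2 * d) := by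
    rw [← h3]
    apply Real.cos_le_cos_of_nonneg_of_le_pi <;> linarith
  have hJ0 : 0 ≤ J 0 (2 * k) := J0_nonneg _ (by linarith) (by linarith)
  have hJ1 := J0_le_one (2 * k)
  push_cast
  nlinarith

end Helper76.RC
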