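import Pool.Agent.Helper49.LT.Base

/-!
# Kernel computable trigonometric polynomials

Integer polynomials as lists, fast products by Kronecker substitution (one product of big integers and
balanced digits), evaluation at points of the unit circle, `ℓ¹` bounds.
-/

open Helper49.LT

namespace Helper76.RC.TPoly

/-! ## Lists as polynomials -/

/-- value at an integer (Horner) -/
def evz (B : ℤ) : List ℤ → ℤ
  | [] => 0
  | a :: l => a + B * evz B l

/-- value in a commutative ring -/
def evr {R : Type*} [CommRing R] (x : R) : List ℤ → R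
  | [] => 0
  | a :: l => (a : R) + x * evr x l

/-- sum -/
def addL : List ℤ → List ℤ → List ℤ
  | [], m => m
  | l, [] => l
  | a :: l, b :: m => (a + b) :: addL l m

/-- negative -/
def negL (l : List ℤ) : List ℤ := l.map Neg.neg

/-- product (reference version, not for computations) -/
def conv : List ℤ → List ℤ → List ℤ
  | [], _ => []
  | a :: l, m => addL (m.map (a * ·)) (0 :: conv l m)

/-- `∑ |c|` -/
def l1 : List ℤ → ℕ
  | [] => 0
  | a :: l => a.natAbs + l1 l

theorem evz_eq (B : ℤ) (l : List ℤ) : evz B l = evr B l := by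
  induction l with
  | nil => rfl
  | cons a l ih => simp [evz, evr, ih]

section ring
variable {R : Type*} [CommRing R] (x : R)

theorem evr_addL (l m : List ℤ) : evr x (addL l m) = evr x l + evr x m := by
  induction l generalizing m with
  | nil => cases m <;> simp [addL, evr]
  | cons a l ih =>
    cases m with
    | nil => simp [addL, evr]
    | cons b m =>
      simp only [addL, evr, ih]
      push_cast
      ring

theorem evr_negL (l : List ℤ) : evr x (negL l) = -evr x l := by
  induction l with
  | nil => simp [negL, evr]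
  | cons a l ih =>
    have : negL (a :: l) = (-a) :: negL l := rfl
    rw [this]
    simp only [evr, ih]
    push_cast
    ring

theorem evr_map_mul (a : ℤ) (l : List ℤ) : evr x (l.map (a * ·)) = a * evr x l := by
  induction l with
  | nil => simp [evr]
  | cons b l ih =>
    simp only [List.map_cons, evr, ih]
    push_cast
    ring

theorem evr_conv (l m : List ℤ) : evr x (conv l m) = evr x l * evr x m := by
  induction l with
  | nil => simp [conv, evr]
  | cons a l ih =>
    simp only [conv, evr_addL, evr_map_mul, evr, ih]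
    push_cast
    ring

theorem evr_append (l m : List ℤ) : evr x (l ++ m) = evr x l + x ^ l.length * evr x m := by
  induction l with
  | nil => simp [evr]
  | cons a l ih =>
    simp only [List.cons_append, evr, ih, List.length_cons]
    ring

theorem evr_replicate_zero (n : ℕ) : evr x (List.replicate n 0) = 0 := by
  induction n with
  | zero => simp [evr]
  | succ n ih => simp [List.replicate_succ, evr, ih]

end ring

/-- reversal, for a point with inverse `y` -/
theorem evr_reverse {R : Type*} [CommRing R] (x y : R) (hxy : x * y = 1) (l : List ℤ) :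
    evr x l.reverse * x = x ^ l.length * evr y l := by
  induction l with
  | nil => simp [evr]
  | cons a l ih =>
    rw [List.reverse_cons, evr_append, add_mul, ih, List.length_reverse, List.length_cons]
    simp only [evr]
    have : x ^ (l.length + 1) * (↑a + y * evr y l) = x ^ l.length * (x * a + (x * y) * evr y l) := by ring
    rw [this, hxy]
    ring

theorem length_addL (l m : List ℤ) : (addL l m).length = max l.length m.length := by
  induction l generalizing m with
  | nil => cases m <;> simp [addL]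
  | cons a l ih =>
    cases m with
    | nil => simp [addL]
    | cons b m => simp [addL, ih]

theorem length_conv (l m : List ℤ) (hl : l ≠ []) (hm : m ≠ []) :
    (conv l m).length = l.length + m.length - 1 := by
  have hm' : 1 ≤ m.length := List.length_pos_iff.2 hm
  induction l with
  | nil => exact absurd rfl hl
  | cons a l ih =>
    simp only [conv, length_addL, List.length_map, List.length_cons]
    by_cases h : l = []
    · subst h
      simp [conv]
      omega
    · rw [ih h]
      have : 1 ≤ l.length := List.length_pos_iff.2 h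
      omega

/-- all coefficients are at most `b` -/
def Bd (b : ℕ) (l : List ℤ) : Prop := ∀ c ∈ l, c.natAbs ≤ b

theorem Bd_l1 (l : List ℤ) : Bd (l1 l) l := by
  intro c hc
  induction l with
  | nil => simp at hc
  | cons a l ih =>
    rcases List.mem_cons.1 hc with rfl | h
    · simp [l1]
    · have := ih h
      simp only [l1]
      omega

theorem Bd_addL {b b' : ℕ} (l m : List ℤ) (hl : Bd b l) (hm : Bd b' m) : Bd (b + b') (addL l m) := by
  induction l generalizing m with
  | nil =>
    intro c hc
    have : c ∈ m := by cases m <;> simpa [addL] using hc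
    exact (hm c this).trans (by omega)
  | cons a l ih =>
    cases m with
    | nil =>
      intro c hc
      have : c ∈ a :: l := by simpa [addL] using hc
      exact (hl c this).trans (by omega)
    | cons d m =>
      intro c hc
      simp only [addL, List.mem_cons] at hc
      rcases hc with rfl | hc
      · have h1 := hl a List.mem_cons_self
        have h2 := hm d List.mem_cons_self
        have := Int.natAbs_add_le a d
        omega
      · exact ih m (fun c hc => hl c (List.mem_cons_of_mem _ hc))
          (fun c hc => hm c (List.mem_cons_of_mem _ hc)) c hc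

theorem Bd_conv {b : ℕ} (l m : List ℤ) (hm : Bd b m) : Bd (l1 l * b) (conv l m) := by
  induction l with
  | nil =>
    intro c hc
    simp [conv] at hc
  | cons a l ih =>
    simp only [conv, l1]
    rw [add_mul]
    apply Bd_addL
    · intro c hc
      obtain ⟨d, hd, rfl⟩ := List.mem_map.1 hc
      rw [Int.natAbs_mul]
      exact Nat.mul_le_mul_left _ (hm d hd)
    · intro c hc
      rcases List.mem_cons.1 hc with rfl | h
      · simp
      · exact ih c h

/-! ## Fast products -/

/-- balanced digits -/
def dec (B h : ℤ) : ℕ → ℤ → List ℤ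
  | 0, _ => []
  | n + 1, X => ((X + h) % B - h) :: dec B h n ((X - ((X + h) % B - h)) / B)

theorem dec_evz (B h : ℤ) (hB : 0 < B) (l : List ℤ) (hl : ∀ c ∈ l, -h ≤ c ∧ c < B - h) :
    dec B h l.length (evz B l) = l := by
  induction l with
  | nil => rfl
  | cons a l ih =>
    obtain ⟨h1, h2⟩ := hl a List.mem_cons_self
    have e1 : (evz B (a :: l) + h) % B - h = a := by
      have : evz B (a :: l) + h = (a + h) + B * evz B l := by simp only [evz]; ring
      rw [this, Int.add_mul_emod_self_left, Int.emod_eq_of_lt (by omega) (by omega)]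
      ring
    have e2 : (evz B (a :: l) - a) / B = evz B l := by
      have : evz B (a :: l) - a = B * evz B l := by simp only [evz]; ring
      rw [this]
      exact Int.mul_ediv_cancel_left _ hB.ne'
    rw [List.length_cons, dec, e1, e2, ih (fun c hc => hl c (List.mem_cons_of_mem _ hc))]

/-- fast product, base `2 ^ e` -/
def fconv (e : ℕ) (l m : List ℤ) : List ℤ :=
  dec ((2 : ℤ) ^ e) ((2 : ℤ) ^ e / 2) (l.length + m.length - 1) (evz ((2 : ℤ) ^ e) l * evz ((2 : ℤ) ^ e) m)

theorem fconv_eq (e : ℕ) (l m : List ℤ) (hl : l ≠ []) (hm : m ≠ []) (he : 1 ≤ e)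
    (h : 2 * (l1 l * l1 m) < 2 ^ e) : fconv e l m = conv l m := by
  unfold fconv
  rw [← length_conv l m hl hm]
  have e1 : evz ((2 : ℤ) ^ e) l * evz ((2 : ℤ) ^ e) m = evz ((2 : ℤ) ^ e) (conv l m) := by
    rw [evz_eq, evz_eq, evz_eq, evr_conv]
  rw [e1]
  apply dec_evz
  · positivity
  · intro c hc
    have h1 := Bd_conv l m (Bd_l1 m) c hc
    obtain ⟨e', rfl⟩ : ∃ e', e = e' + 1 := ⟨e - 1, by omega⟩
    have h2 : (2 : ℤ) ^ (e' + 1) / 2 = 2 ^ e' := by
      rw [pow_succ]
      exact Int.mul_ediv_cancel _ (by norm_num)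
    rw [h2]
    have h3 : l1 l * l1 m < 2 ^ e' := by
      rw [pow_succ] at h
      omega
    have h4 : (c.natAbs : ℤ) < 2 ^ e' := by
      exact_mod_cast lt_of_le_of_lt h1 h3
    have h5 : |c| < 2 ^ e' := by
      rw [Int.abs_eq_natAbs]
      exact h4
    rw [abs_lt] at h5
    constructor
    · linarith
    · have : (2 : ℤ) ^ (e' + 1) - 2 ^ e' = 2 ^ e' := by ring
      rw [this]
      exact h5.2

/-! ## Complex coefficients -/

/-- a list of complex integers: real parts and imaginary parts -/
structure TP where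
  re : List ℤ
  im : List ℤ

namespace TP

/-- value at a complex number -/
noncomputable def ev (x : ℂ) (p : TP) : ℂ := evr x p.re + Complex.I * evr x p.im

def add (p q : TP) : TP := ⟨addL p.re q.re, addL p.im q.im⟩
def neg (p : TP) : TP := ⟨negL p.re, negL p.im⟩
def sub (p q : TP) : TP := ⟨addL p.re (negL q.re), addL p.im (negL q.im)⟩
/-- conjugate (lists reversed) -/
def cj (p : TP) : TP := ⟨p.re.reverse, negL p.im.reverse⟩
/-- product with base `2 ^ e` -/
def mul (e : ℕ) (p q : TP) : TP :=
  ⟨addL (fconv e p.re q.re) (negL (fconv e p.im q.im)), addL (fconv e p.re q.im) (fconv e p.im q.re)⟩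
/-- `∑ |re| + |im|` -/
def nrm (p : TP) : ℕ := l1 p.re + l1 p.im
/-- both lists have length `n` -/
def isLen (n : ℕ) (p : TP) : Bool := Nat.beq p.re.length n && Nat.beq p.im.length n
/-- the constant `c` in the centre of a list of length `2 n + 1` -/
def ctr (n : ℕ) (c : ℤ) : TP := ⟨List.replicate n 0 ++ c :: List.replicate n 0, List.replicate (2 * n + 1) 0⟩
/-- padding by `k` zeros on both sides -/
def pad (k : ℕ) (p : TP) : TP :=
  ⟨List.replicate k 0 ++ (p.re ++ List.replicate k 0), List.replicate k 0 ++ (p.im ++ List.replicate k 0)⟩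

theorem isLen_iff (n : ℕ) (p : TP) : p.isLen n = true ↔ p.re.length = n ∧ p.im.length = n := by
  unfold isLen
  rw [Bool.and_eq_true]
  constructor
  · rintro ⟨h1, h2⟩
    exact ⟨Nat.eq_of_beq_eq_true h1, Nat.eq_of_beq_eq_true h2⟩
  · rintro ⟨h1, h2⟩
    rw [h1, h2]
    simp

theorem ev_add (x : ℂ) (p q : TP) : (p.add q).ev x = p.ev x + q.ev x := by
  simp only [ev, add, evr_addL]
  ring

theorem ev_sub (x : ℂ) (p q : TP) : (p.sub q).ev x = p.ev x - q.ev x := by
  simp only [ev, sub, evr_addL, evr_negL]
  ring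

theorem ev_neg (x : ℂ) (p : TP) : (p.neg).ev x = -p.ev x := by
  simp only [ev, neg, evr_negL]
  ring

/-- no overflow -/
def ok (e : ℕ) (p q : TP) : Bool :=
  Nat.ble 1 e && (Nat.ble 1 p.re.length && (Nat.ble 1 p.im.length && (Nat.ble 1 q.re.length &&
    (Nat.ble 1 q.im.length && Nat.ble (2 * (p.nrm * q.nrm) + 1) (2 ^ e)))))

theorem ev_mul (x : ℂ) (e : ℕ) (p q : TP) (h : ok e p q = true) : (mul e p q).ev x = p.ev x * q.ev x := by
  unfold ok at h
  simp only [Bool.and_eq_true] at h
  obtain ⟨h0, h1, h2, h3, h4, h5⟩ := h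
  have h0 := Nat.le_of_ble_eq_true h0
  have h1 : p.re ≠ [] := List.length_pos_iff.1 (Nat.le_of_ble_eq_true h1)
  have h2 : p.im ≠ [] := List.length_pos_iff.1 (Nat.le_of_ble_eq_true h2)
  have h3 : q.re ≠ [] := List.length_pos_iff.1 (Nat.le_of_ble_eq_true h3)
  have h4 : q.im ≠ [] := List.length_pos_iff.1 (Nat.le_of_ble_eq_true h4)
  have h5 := Nat.le_of_ble_eq_true h5
  have key : ∀ a b : ℕ, a ≤ p.nrm → b ≤ q.nrm → 2 * (a * b) < 2 ^ e := by
    intro a b ha hb
    have := Nat.mul_le_mul ha hb
    omega
  have a1 : l1 p.re ≤ p.nrm := by unfold nrm; omega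
  have a2 : l1 p.im ≤ p.nrm := by unfold nrm; omega
  have a3 : l1 q.re ≤ q.nrm := by unfold nrm; omega
  have a4 : l1 q.im ≤ q.nrm := by unfold nrm; omega
  simp only [ev, mul, evr_addL, evr_negL]
  rw [fconv_eq e _ _ h1 h3 h0 (key _ _ a1 a3), fconv_eq e _ _ h2 h4 h0 (key _ _ a2 a4),
    fconv_eq e _ _ h1 h4 h0 (key _ _ a1 a4), fconv_eq e _ _ h2 h3 h0 (key _ _ a2 a3)]
  simp only [evr_conv]
  have hI : Complex.I * Complex.I = -1 := Complex.I_mul_I
  linear_combination (-(evr x p.im * evr x q.im)) * hI

theorem len_mul (e a b : ℕ) (p q : TP) (h : ok e p q = true) (hp : p.isLen a = true) (hq : q.isLen b = true) :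
    (mul e p q).re.length = a + b - 1 ∧ (mul e p q).im.length = a + b - 1 := by
  rw [isLen_iff] at hp hq
  unfold ok at h
  simp only [Bool.and_eq_true] at h
  obtain ⟨h0, h1, h2, h3, h4, h5⟩ := h
  have hdec : ∀ (B h : ℤ) (n : ℕ) (X : ℤ), (dec B h n X).length = n := by
    intro B h n
    induction n with
    | zero => intro X; rfl
    | succ n ih => intro X; simp [dec, ih]
  have hn : ∀ l : List ℤ, (negL l).length = l.length := by
    intro l; simp [negL]
  unfold mul fconv
  simp only [length_addL, hn, hdec, hp.1, hp.2, hq.1, hq.2, max_self]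
  trivial

theorem norm_evr_le (x : ℂ) (hx : ‖x‖ = 1) (l : List ℤ) : ‖evr x l‖ ≤ l1 l := by
  induction l with
  | nil => simp [evr, l1]
  | cons a l ih =>
    simp only [evr, l1]
    refine (norm_add_le _ _).trans ?_
    rw [norm_mul, hx, one_mul]
    push_cast
    have : ‖(a : ℂ)‖ = (a.natAbs : ℝ) := by
      rw [Complex.norm_intCast, Nat.cast_natAbs, Int.cast_abs]
    rw [this]
    push_cast at ih ⊢
    linarith

theorem norm_ev_le (x : ℂ) (hx : ‖x‖ = 1) (p : TP) : ‖p.ev x‖ ≤ p.nrm := by
  unfold ev nrm
  refine (norm_add_le _ _).trans ?_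
  rw [norm_mul, Complex.norm_I, one_mul]
  push_cast
  exact add_le_add (norm_evr_le x hx _) (norm_evr_le x hx _)

theorem conj_evr (x : ℂ) (l : List ℤ) : (starRingEnd ℂ) (evr x l) = evr ((starRingEnd ℂ) x) l := by
  induction l with
  | nil => simp [evr]
  | cons a l ih => simp [evr, ih]

/-- the conjugate -/
theorem ev_cj (x : ℂ) (hx : ‖x‖ = 1) (n : ℕ) (p : TP) (h : p.isLen (n + 1) = true) :
    p.cj.ev x = x ^ n * (starRingEnd ℂ) (p.ev x) := by
  rw [isLen_iff] at h
  have hxy : x * (starRingEnd ℂ) x = 1 := by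
    rw [Complex.mul_conj, Complex.normSq_eq_norm_sq, hx]
    norm_num
  have hx0 : x ≠ 0 := by
    intro h0
    rw [h0] at hx
    simp at hx
  have key : ∀ l : List ℤ, l.length = n + 1 → evr x l.reverse = x ^ n * evr ((starRingEnd ℂ) x) l := by
    intro l hl
    have := evr_reverse x ((starRingEnd ℂ) x) hxy l
    rw [hl, pow_succ] at this
    have h2 : (evr x l.reverse - x ^ n * evr ((starRingEnd ℂ) x) l) * x = 0 := by
      rw [sub_mul, this]
      ring
    rcases mul_eq_zero.1 h2 with h3 | h3
    · exact sub_eq_zero.1 h3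
    · exact absurd h3 hx0
  unfold cj ev
  simp only [evr_negL, map_add, map_mul, Complex.conj_I, conj_evr]
  rw [key _ h.1, key _ h.2]
  ring

theorem ev_ctr (x : ℂ) (n : ℕ) (c : ℤ) : (ctr n c).ev x = x ^ n * c := by
  unfold ctr ev
  rw [evr_append, evr_replicate_zero, evr_replicate_zero]
  simp [evr, evr_replicate_zero]

theorem ev_pad (x : ℂ) (k : ℕ) (p : TP) : (pad k p).ev x = x ^ k * p.ev x := by
  unfold pad ev
  simp only [evr_append, evr_replicate_zero, List.length_replicate]
  ring

end TP

/-! ## Trigonometric polynomials -/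

/-- the trigonometric polynomial with shift `N`: the entry `k` has the frequency `k - N` -/
noncomputable def T (N : ℕ) (p : TP) (t : ℝ) : ℂ := ee (-((N : ℝ) * t)) * p.ev (ee t)

theorem ee_nat (n : ℕ) (t : ℝ) : ee ((n : ℝ) * t) = ee t ^ n := by
  have := ee_int_mul (n : ℤ) t
  simpa using this

theorem ee_neg_mul_pow (n : ℕ) (t : ℝ) : ee (-((n : ℝ) * t)) * ee t ^ n = 1 := by
  rw [← ee_nat, ← ee_add]
  simp [ee_zero]

theorem T_add (N : ℕ) (p q : TP) (t : ℝ) : T N (p.add q) t = T N p t + T N q t := by
  unfold T; rw [TP.ev_add]; ring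

theorem T_sub (N : ℕ) (p q : TP) (t : ℝ) : T N (p.sub q) t = T N p t - T N q t := by
  unfold T; rw [TP.ev_sub]; ring

theorem T_neg (N : ℕ) (p : TP) (t : ℝ) : T N p.neg t = -T N p t := by
  unfold T; rw [TP.ev_neg]; ring

theorem T_mul (N M e : ℕ) (p q : TP) (h : TP.ok e p q = true) (t : ℝ) :
    T (N + M) (TP.mul e p q) t = T N p t * T M q t := by
  unfold T
  rw [TP.ev_mul _ e p q h]
  have : ee (-(((N + M : ℕ) : ℝ) * t)) = ee (-((N : ℝ) * t)) * ee (-((M : ℝ) * t)) := by
    rw [← ee_add]
    congr 1
    push_cast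
    ring
  rw [this]
  ring

theorem T_cj (N : ℕ) (p : TP) (h : p.isLen (2 * N + 1) = true) (t : ℝ) :
    T N p.cj t = (starRingEnd ℂ) (T N p t) := by
  unfold T
  rw [TP.ev_cj _ (norm_ee t) (2 * N) p h, map_mul, ← ee_neg, neg_neg]
  have h1 : ee (-((N : ℝ) * t)) * ee t ^ (2 * N) = ee ((N : ℝ) * t) := by
    rw [← ee_nat, ← ee_add]
    congr 1
    push_cast
    ring
  rw [← mul_assoc, h1]

theorem T_ctr (N : ℕ) (c : ℤ) (t : ℝ) : T N (TP.ctr N c) t = c := by
  unfold T
  rw [TP.ev_ctr, ← mul_assoc, ee_neg_mul_pow, one_mul]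

theorem T_pad (N k : ℕ) (p : TP) (t : ℝ) : T (N + k) (p.pad k) t = T N p t := by
  unfold T
  rw [TP.ev_pad]
  have h1 : ee (-(((N + k : ℕ) : ℝ) * t)) * ee t ^ k = ee (-((N : ℝ) * t)) := by
    rw [← ee_nat, ← ee_add]
    congr 1
    push_cast
    ring
  rw [← mul_assoc, h1]

theorem norm_T_le (N : ℕ) (p : TP) (t : ℝ) : ‖T N p t‖ ≤ p.nrm := by
  unfold T
  rw [norm_mul, norm_ee, one_mul]
  exact TP.norm_ev_le _ (norm_ee t) p

end Helper76.RC.TPoly

namespace Helper76.RC.TPoly

/-! ## Data -/

/-- decoding of a list of `n` integers from one natural number: digits in base `B`, offset `o` -/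
def lst (B o : ℕ) : ℕ → ℕ → List ℤ
  | 0, _ => []
  | n + 1, x => (((x % B : ℕ) : ℤ) - (o : ℤ)) :: lst B o n (x / B)

/-- a list of `n` complex integers from two natural numbers: base `2 ^ (b + 1)`, offset `2 ^ b` -/
def TP.lit (b n x y : ℕ) : TP := ⟨lst (2 ^ (b + 1)) (2 ^ b) n x, lst (2 ^ (b + 1)) (2 ^ b) n y⟩

end Helper76.RC.TPoly
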