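import Pool.Agent.Helper76.RC.TPoly

/-!
# Wiener certificates for unit vectors (cell engine, module W1)

`chkW` (kernel check on integer data) gives `‖V - D/‖D‖‖ ≤ ε` for all `t`, where `V = T N v t / SC` is a
trigonometric polynomial and `D` is any complex number with `‖SC D - T M d t‖ ≤ δ SC`.
-/

open Helper49.LT

namespace Helper76.RC.TPoly

/-- analysis: an approximate unit vector with a small angle to `D` -/
theorem unit_close (V D : ℂ) (e1 b : ℝ) (h1 : |‖V‖ ^ 2 - 1| ≤ e1) (_hb : 0 ≤ b)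
    (h2 : |((starRingEnd ℂ) V * D).im| ≤ b * ‖D‖) (h3 : 0 < ((starRingEnd ℂ) V * D).re) :
    ‖V - D / (‖D‖ : ℂ)‖ ≤ e1 + b ^ 2 + b := by
  have hD : 0 < ‖D‖ := by
    rw [norm_pos_iff]
    intro h
    rw [h] at h3
    simp at h3
  set u : ℂ := D / (‖D‖ : ℂ) with hu
  have hun : ‖u‖ = 1 := by
    rw [hu, norm_div, Complex.norm_real, Real.norm_eq_abs, abs_of_pos hD]
    exact div_self hD.ne'
  set c : ℂ := (starRingEnd ℂ) V * u with hc
  have hcD : c = ((starRingEnd ℂ) V * D) / (‖D‖ : ℂ) := by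
    rw [hc, hu]; ring
  have hcim : |c.im| ≤ b := by
    rw [hcD, Complex.div_ofReal_im, abs_div, abs_of_pos hD, div_le_iff₀ hD]
    exact h2
  have hcre : 0 < c.re := by
    rw [hcD, Complex.div_ofReal_re]
    exact div_pos h3 hD
  have hcn : c.re ^ 2 + c.im ^ 2 = ‖V‖ ^ 2 := by
    have : ‖c‖ ^ 2 = ‖V‖ ^ 2 := by
      rw [hc, norm_mul, hun, mul_one, RCLike.norm_conj]
    rw [← this, ← Complex.normSq_eq_norm_sq, Complex.normSq_apply]
    ring
  have e : ‖V - u‖ = ‖c - 1‖ := by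
    have h4 : (starRingEnd ℂ) (V - u) * u = c - 1 := by
      rw [map_sub, sub_mul, hc]
      have : (starRingEnd ℂ) u * u = 1 := by
        rw [mul_comm, Complex.mul_conj, Complex.normSq_eq_norm_sq, hun]
        norm_num
      rw [this]
    rw [← h4, norm_mul, hun, mul_one, RCLike.norm_conj]
  rw [e]
  have h5 : ‖c - 1‖ ≤ |c.re - 1| + |c.im| := by
    have := Complex.norm_le_abs_re_add_abs_im (c - 1)
    simpa using this
  have h6 : |c.re - 1| ≤ e1 + b ^ 2 := by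
    have h7 : |c.re - 1| ≤ |c.re ^ 2 - 1| := by
      have : c.re ^ 2 - 1 = (c.re - 1) * (c.re + 1) := by ring
      rw [this, abs_mul, abs_of_pos (by linarith : 0 < c.re + 1)]
      nlinarith [abs_nonneg (c.re - 1)]
    refine h7.trans ?_
    have h8 : c.re ^ 2 - 1 = (‖V‖ ^ 2 - 1) - c.im ^ 2 := by linarith
    rw [h8]
    refine (abs_sub _ _).trans ?_
    have h9 : |c.im ^ 2| ≤ b ^ 2 := by
      rw [abs_of_nonneg (sq_nonneg _)]
      exact sq_le_sq' (by linarith [abs_nonneg c.im, neg_abs_le c.im]) (le_trans (le_abs_self _) hcim)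
    linarith
  linarith

/-- the check -/
def chkW (e N M : ℕ) (v d : TP) (s2 C : ℤ) (E1 E2 F : ℕ) : Bool :=
  v.isLen (2 * N + 1) && (d.isLen (2 * M + 1) && (TP.ok e v v.cj && (TP.ok e v.cj d &&
    (Nat.ble (((TP.mul e v v.cj).sub (TP.ctr (2 * N) s2)).nrm) E1 &&
    (Nat.ble (((TP.mul e v.cj d).sub (TP.mul e v.cj d).cj).nrm) (2 * E2) &&
      Nat.ble ((((TP.mul e v.cj d).add (TP.mul e v.cj d).cj).sub (TP.ctr (N + M) (2 * C))).nrm) (2 * F))))))

theorem TP.isLen_cj (n : ℕ) (p : TP) (h : p.isLen n = true) : p.cj.isLen n = true := by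
  rw [TP.isLen_iff] at h ⊢
  unfold TP.cj negL
  simp [h.1, h.2]

theorem chkW_sound (e N M : ℕ) (v d : TP) (s2 C : ℤ) (E1 E2 F : ℕ)
    (h : chkW e N M v d s2 C E1 E2 F = true) (t : ℝ) :
    |‖T N v t‖ ^ 2 - s2| ≤ E1 ∧ |((starRingEnd ℂ) (T N v t) * T M d t).im| ≤ E2 ∧
      (C : ℝ) - F ≤ ((starRingEnd ℂ) (T N v t) * T M d t).re := by
  unfold chkW at h
  simp only [Bool.and_eq_true] at h
  obtain ⟨h1, h2, h3, h4, h5, h6, h7⟩ := h
  have h5 := Nat.le_of_ble_eq_true h5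
  have h6 := Nat.le_of_ble_eq_true h6
  have h7 := Nat.le_of_ble_eq_true h7
  have hcj := TP.isLen_cj _ _ h1
  have hW : (TP.mul e v.cj d).isLen (2 * (N + M) + 1) = true := by
    rw [TP.isLen_iff]
    have := TP.len_mul e _ _ _ _ h4 hcj h2
    omega
  set X : ℂ := (starRingEnd ℂ) (T N v t) * T M d t with hX
  have eX : T (N + M) (TP.mul e v.cj d) t = X := by
    rw [T_mul N M e _ _ h4, T_cj N v h1]
  have eXc : T (N + M) (TP.mul e v.cj d).cj t = (starRingEnd ℂ) X := by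
    rw [T_cj (N + M) _ hW, eX]
  refine ⟨?_, ?_, ?_⟩
  · have a1 := norm_T_le (2 * N) ((TP.mul e v v.cj).sub (TP.ctr (2 * N) s2)) t
    have a2 : T (2 * N) (TP.mul e v v.cj) t = T N v t * (starRingEnd ℂ) (T N v t) := by
      rw [two_mul, T_mul N N e _ _ h3, T_cj N v h1]
    rw [T_sub, a2, T_ctr] at a1
    have a3 : T N v t * (starRingEnd ℂ) (T N v t) - (s2 : ℂ) = ((‖T N v t‖ ^ 2 - s2 : ℝ) : ℂ) := by
      rw [Complex.mul_conj, Complex.normSq_eq_norm_sq]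
      push_cast
      ring
    rw [a3, Complex.norm_real, Real.norm_eq_abs] at a1
    exact a1.trans (by exact_mod_cast h5)
  · have a1 := norm_T_le (N + M) ((TP.mul e v.cj d).sub (TP.mul e v.cj d).cj) t
    rw [T_sub, eX, eXc] at a1
    have a2 : X - (starRingEnd ℂ) X = ((2 * X.im : ℝ) : ℂ) * Complex.I := by
      apply Complex.ext
      · simp
      · simp
        ring
    rw [a2, norm_mul, Complex.norm_I, mul_one, Complex.norm_real, Real.norm_eq_abs, abs_mul] at a1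
    have a3 : (((TP.mul e v.cj d).sub (TP.mul e v.cj d).cj).nrm : ℝ) ≤ 2 * E2 := by exact_mod_cast h6
    have a4 : |(2 : ℝ)| = 2 := by norm_num
    rw [a4] at a1
    linarith
  · have a1 := norm_T_le (N + M) (((TP.mul e v.cj d).add (TP.mul e v.cj d).cj).sub (TP.ctr (N + M) (2 * C))) t
    rw [T_sub, T_add, eX, eXc, T_ctr] at a1
    have a2 : X + (starRingEnd ℂ) X - ((2 * C : ℤ) : ℂ) = ((2 * X.re - 2 * C : ℝ) : ℂ) := by
      apply Complex.ext
      · simp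
        ring
      · simp
    rw [a2, Complex.norm_real, Real.norm_eq_abs] at a1
    have a3 : ((((TP.mul e v.cj d).add (TP.mul e v.cj d).cj).sub (TP.ctr (N + M) (2 * C))).nrm : ℝ) ≤ 2 * F := by
      exact_mod_cast h7
    have := (abs_le.1 a1).1
    linarith

/-- W1: the certificate. `V = T N v t / SC`, `D` = the edge, `‖SC D - T M d t‖ ≤ δ SC` -/
theorem wiener (e N M : ℕ) (v d : TP) (SC C : ℤ) (E1 E2 F : ℕ)
    (h : chkW e N M v d (SC ^ 2) C E1 E2 F = true) (hSC : 0 < SC) (a1 a2 g δ b ε : ℝ)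
    (ha1 : (E1 : ℝ) ≤ a1 * (SC : ℝ) ^ 2) (ha2 : (E2 : ℝ) ≤ a2 * (SC : ℝ) ^ 2)
    (hg : g * (SC : ℝ) ^ 2 ≤ (C : ℝ) - F) (_hδ : 0 ≤ δ) (hb : 0 ≤ b) (h0 : 0 < g - (1 + a1) * δ)
    (hbb : (a2 + (1 + a1) * δ) * (1 + a1) ≤ b * (g - (1 + a1) * δ)) (hε : a1 + b ^ 2 + b ≤ ε)
    (t : ℝ) (D : ℂ) (hD : ‖(SC : ℂ) * D - T M d t‖ ≤ δ * SC) :
    ‖T N v t / (SC : ℂ) - D / (‖D‖ : ℂ)‖ ≤ ε := by
  obtain ⟨k1, k2, k3⟩ := chkW_sound e N M v d _ C E1 E2 F h t
  have hS : (0 : ℝ) < SC := by exact_mod_cast hSC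
  have hS2 : (0 : ℝ) < (SC : ℝ) ^ 2 := by positivity
  have hSc : (SC : ℂ) ≠ 0 := by exact_mod_cast hSC.ne'
  set V : ℂ := T N v t / (SC : ℂ) with hV
  have hVn : ‖V‖ ^ 2 = ‖T N v t‖ ^ 2 / (SC : ℝ) ^ 2 := by
    rw [hV, norm_div, div_pow]
    congr 2
    rw [Complex.norm_intCast, abs_of_pos hS]
  have m1 : |‖V‖ ^ 2 - 1| ≤ a1 := by
    have e1 : ‖V‖ ^ 2 - 1 = (‖T N v t‖ ^ 2 - (SC : ℝ) ^ 2) / (SC : ℝ) ^ 2 := by
      rw [hVn]; field_simp
    rw [e1, abs_div, abs_of_pos hS2, div_le_iff₀ hS2]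
    push_cast at k1
    exact k1.trans ha1
  have ha10 : 0 ≤ a1 := (abs_nonneg _).trans m1
  have m2 : ‖V‖ ≤ 1 + a1 := by
    have h1 : ‖V‖ ^ 2 ≤ 1 + a1 := by linarith [(abs_le.1 m1).2]
    have h2 : ‖V‖ ^ 2 ≤ (1 + a1) ^ 2 := by nlinarith
    exact le_of_sq_le_sq h2 (by linarith)
  set D' : ℂ := T M d t / (SC : ℂ) with hD'
  have m3 : ‖D - D'‖ ≤ δ := by
    have e1 : D - D' = ((SC : ℂ) * D - T M d t) / (SC : ℂ) := by
      rw [hD']; field_simp
    rw [e1, norm_div, Complex.norm_intCast, abs_of_pos hS, div_le_iff₀ hS]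
    exact hD
  have e2 : (starRingEnd ℂ) V * D' = ((starRingEnd ℂ) (T N v t) * T M d t) / (((SC : ℝ) ^ 2 : ℝ) : ℂ) := by
    rw [hV, hD', map_div₀]
    have : (starRingEnd ℂ) (SC : ℂ) = (SC : ℂ) := by simp
    rw [this]
    push_cast
    field_simp
  have m4 : |((starRingEnd ℂ) V * D').im| ≤ a2 := by
    rw [e2, Complex.div_ofReal_im, abs_div, abs_of_pos hS2, div_le_iff₀ hS2]
    exact k2.trans ha2
  have m5 : g ≤ ((starRingEnd ℂ) V * D').re := by
    rw [e2, Complex.div_ofReal_re, le_div_iff₀ hS2]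
    exact hg.trans k3
  have e3 : (starRingEnd ℂ) V * D = (starRingEnd ℂ) V * D' + (starRingEnd ℂ) V * (D - D') := by ring
  have m6 : ‖(starRingEnd ℂ) V * (D - D')‖ ≤ (1 + a1) * δ := by
    rw [norm_mul, RCLike.norm_conj]
    exact mul_le_mul m2 m3 (norm_nonneg _) (by linarith)
  have m7 : |((starRingEnd ℂ) V * D).im| ≤ a2 + (1 + a1) * δ := by
    rw [e3, Complex.add_im]
    refine (abs_add_le _ _).trans ?_
    have := Complex.abs_im_le_norm ((starRingEnd ℂ) V * (D - D'))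
    linarith
  have m8 : g - (1 + a1) * δ ≤ ((starRingEnd ℂ) V * D).re := by
    rw [e3, Complex.add_re]
    have := Complex.abs_re_le_norm ((starRingEnd ℂ) V * (D - D'))
    have := (abs_le.1 this).1
    linarith
  have m9 : g - (1 + a1) * δ ≤ (1 + a1) * ‖D‖ := by
    have h1 := Complex.re_le_norm ((starRingEnd ℂ) V * D)
    rw [norm_mul, RCLike.norm_conj] at h1
    have h2 : ‖V‖ * ‖D‖ ≤ (1 + a1) * ‖D‖ := mul_le_mul_of_nonneg_right m2 (norm_nonneg _)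
    linarith
  refine (unit_close V D a1 b m1 hb ?_ (by linarith)).trans hε
  have h1 : (a2 + (1 + a1) * δ) * (1 + a1) ≤ (b * ‖D‖) * (1 + a1) := by
    refine hbb.trans ?_
    have := mul_le_mul_of_nonneg_left m9 hb
    linarith
  have h2 : a2 + (1 + a1) * δ ≤ b * ‖D‖ := le_of_mul_le_mul_right h1 (by linarith)
  linarith

/-! ## The constant edges -/

/-- a complex constant in the centre -/
def TP.ctrC (n : ℕ) (a c : ℤ) : TP :=
  ⟨List.replicate n 0 ++ a :: List.replicate n 0, List.replicate n 0 ++ c :: List.replicate n 0⟩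

theorem T_ctrC (N : ℕ) (a c : ℤ) (t : ℝ) : T N (TP.ctrC N a c) t = a + Complex.I * c := by
  unfold T TP.ctrC TP.ev
  simp only [evr_append, evr_replicate_zero, List.length_replicate, zero_add, evr]
  have := ee_neg_mul_pow N t
  linear_combination ((a : ℂ) + Complex.I * c) * this

/-- `SC (1/2 + i √3/2)` is within `1` of `h + i r` -/
theorem om_approx (SC h r : ℤ) (h1 : SC = 2 * h) (hr : 0 ≤ r) (h2 : 4 * r ^ 2 ≤ 3 * SC ^ 2)
    (h3 : 3 * SC ^ 2 ≤ 4 * (r + 1) ^ 2) (hSC : 0 < SC) :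
    ‖(SC : ℂ) * (1 / 2 + (Real.sqrt 3 / 2 : ℝ) * Complex.I) - ((h : ℂ) + Complex.I * r)‖ ≤ 1 := by
  have hS : (0 : ℝ) < SC := by exact_mod_cast hSC
  have e1 : (SC : ℂ) * (1 / 2 + (Real.sqrt 3 / 2 : ℝ) * Complex.I) - ((h : ℂ) + Complex.I * r)
      = ((SC * (Real.sqrt 3 / 2) - r : ℝ) : ℂ) * Complex.I := by
    rw [h1]
    push_cast
    ring
  rw [e1, norm_mul, Complex.norm_I, mul_one, Complex.norm_real, Real.norm_eq_abs, abs_le]
  have h2' : 4 * (r : ℝ) ^ 2 ≤ 3 * (SC : ℝ) ^ 2 := by exact_mod_cast h2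
  have h3' : 3 * (SC : ℝ) ^ 2 ≤ 4 * ((r : ℝ) + 1) ^ 2 := by exact_mod_cast h3
  have hr' : (0 : ℝ) ≤ r := by exact_mod_cast hr
  have hs3 : Real.sqrt 3 ^ 2 = 3 := Real.sq_sqrt (by norm_num)
  have hs0 := Real.sqrt_nonneg 3
  constructor
  · have : (r : ℝ) ≤ SC * (Real.sqrt 3 / 2) := by
      apply le_of_sq_le_sq _ (by positivity)
      have : (SC * (Real.sqrt 3 / 2)) ^ 2 = (SC : ℝ) ^ 2 * (Real.sqrt 3 ^ 2) / 4 := by ring
      rw [this, hs3]
      linarith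
    linarith
  · have : SC * (Real.sqrt 3 / 2) ≤ (r : ℝ) + 1 := by
      apply le_of_sq_le_sq _ (by linarith)
      have : (SC * (Real.sqrt 3 / 2)) ^ 2 = (SC : ℝ) ^ 2 * (Real.sqrt 3 ^ 2) / 4 := by ring
      rw [this, hs3]
      linarith
    linarith

end Helper76.RC.TPoly
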